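import Pool.Agent.Lib.MP_794fdb_gt.U.Defs

set_option autoImplicit false

open scoped ContDiff Manifold Topology
open Real Set Matrix

namespace Pool.Agent.Lib.SkewSt

open Pool.Agent.Lib.SkewU

theorem eu_polar (x y : ℝ) : ∃ a ∈ Icc (-π) π, √(x ^ 2 + y ^ 2) * cos a = x ∧
    √(x ^ 2 + y ^ 2) * sin a = y := by
  refine ⟨Complex.arg (x + y * Complex.I), ⟨(Complex.neg_pi_lt_arg _).le, Complex.arg_le_pi _⟩, ?_⟩
  have h1 := Complex.norm_mul_cos_arg (x + y * Complex.I)
  have h2 := Complex.norm_mul_sin_arg (x + y * Complex.I)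
  rw [Complex.norm_add_mul_I] at h1 h2
  constructor
  · simpa using h1
  · simpa using h2

theorem eu_dot (u v : V3) : u ⬝ᵥ v = u 0 * v 0 + u 1 * v 1 + u 2 * v 2 := by
  simp [dotProduct, Fin.sum_univ_three]

/-- spherical coordinates -/
theorem eu_sph {m : V3} (hm : m ⬝ᵥ m = 1) : ∃ a ∈ Icc (-π) π, ∃ b ∈ Icc 0 π,
    cos a * sin b = m 0 ∧ sin a * sin b = m 1 ∧ cos b = m 2 := by
  rw [eu_dot] at hm
  have h1 : -1 ≤ m 2 := by nlinarith [sq_nonneg (m 0), sq_nonneg (m 1)]
  have h2 : m 2 ≤ 1 := by nlinarith [sq_nonneg (m 0), sq_nonneg (m 1)]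
  obtain ⟨a, ha, h3, h4⟩ := eu_polar (m 0) (m 1)
  refine ⟨a, ha, arccos (m 2), ⟨arccos_nonneg _, arccos_le_pi _⟩, ?_, ?_, cos_arccos h1 h2⟩
  · rw [sin_arccos, ← h3]
    have : 1 - m 2 ^ 2 = m 0 ^ 2 + m 1 ^ 2 := by linarith
    rw [this, h3, mul_comm, h3]
  · rw [sin_arccos, ← h4]
    have : 1 - m 2 ^ 2 = m 0 ^ 2 + m 1 ^ 2 := by linarith
    rw [this, h4, mul_comm, h4]

/-- Euler angles exist. Proof: spherical coordinates `m = (cos a sin b, sin a sin b, cos b)` with
`b = arccos (m 2) ∈ [0, π]` and `a ∈ [-π, π]` (argument of `m 0 + i m 1`); the vectors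
`e1 = (cos a cos b, sin a cos b, - sin b)`, `e2 = (- sin a, cos a, 0)` are an orthonormal basis of
the orthogonal complement of `m`, so `h = cos c e1 + sin c e2` with `c ∈ [-π, π]`. Take
`p = (a, b, c)`. -/
theorem exists_angles {m h : V3} (hm : m ⬝ᵥ m = 1) (hh : h ⬝ᵥ h = 1) (hmh : m ⬝ᵥ h = 0) :
    ∃ p ∈ Icc (fun _ : Fin 3 => -(4 : ℝ)) (fun _ => 4), S p 2 = m ∧ S p 0 = h := by
  obtain ⟨a, ha, b, hb, h0, h1, h2⟩ := eu_sph hm
  rw [eu_dot] at hh hmh
  have ea := sin_sq_add_cos_sq a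
  have eb := sin_sq_add_cos_sq b
  set u : ℝ := h 0 * (cos a * cos b) + h 1 * (sin a * cos b) - h 2 * sin b with hu
  set v : ℝ := -(h 0 * sin a) + h 1 * cos a with hv
  have hw : h 0 * (cos a * sin b) + h 1 * (sin a * sin b) + h 2 * cos b = 0 := by
    rw [h0, h1, h2]
    linarith
  have huv : u ^ 2 + v ^ 2 = 1 := by
    have e1 : u ^ 2 + v ^ 2 + (h 0 * (cos a * sin b) + h 1 * (sin a * sin b) + h 2 * cos b) ^ 2 =
        h 0 * h 0 + h 1 * h 1 + h 2 * h 2 := by
      rw [hu, hv]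
      linear_combination (h 0 ^ 2 + h 1 ^ 2) * ea +
        ((h 0 * cos a + h 1 * sin a) ^ 2 + h 2 ^ 2) * eb
    rw [hw, hh] at e1
    linarith
  obtain ⟨c, hc, h3, h4⟩ := eu_polar u v
  rw [huv, sqrt_one, one_mul] at h3 h4
  have hpi := pi_le_four
  have h5 : S ![a, b, c] 2 = m := by
    funext i
    fin_cases i
    · simpa [S] using h0
    · simpa [S] using h1
    · simpa [S] using h2
  have h6 : S ![a, b, c] 0 = h := by
    funext i
    fin_cases i
    · simp only [S, Matrix.cons_val_zero, Matrix.cons_val_one, Matrix.cons_val, Fin.zero_eta,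
        Fin.isValue]
      rw [h3, h4, hu, hv]
      linear_combination (h 0) * ea + (h 0 * cos a ^ 2 + h 1 * sin a * cos a) * eb -
        (cos a * sin b) * hw
    · simp only [S, Matrix.cons_val_zero, Matrix.cons_val_one, Matrix.cons_val, Fin.mk_one,
        Fin.isValue]
      rw [h3, h4, hu, hv]
      linear_combination (h 1) * ea + (h 0 * sin a * cos a + h 1 * sin a ^ 2) * eb -
        (sin a * sin b) * hw
    · simp only [S, Matrix.cons_val_zero, Matrix.cons_val_one, Matrix.cons_val,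
        Fin.reduceFinMk, Fin.isValue]
      rw [h3, hu]
      linear_combination (h 2) * eb - (cos b) * hw
  refine ⟨![a, b, c], ⟨?_, ?_⟩, h5, h6⟩
  · intro i
    fin_cases i
    · simp only [Fin.zero_eta, Fin.isValue, Matrix.cons_val_zero]
      linarith [ha.1]
    · simp only [Fin.mk_one, Fin.isValue, Matrix.cons_val_one, Matrix.cons_val_zero]
      linarith [hb.1]
    · simp only [Fin.reduceFinMk, Fin.isValue, Matrix.cons_val]
      linarith [hc.1]
  · intro i
    fin_cases i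
    · simp only [Fin.zero_eta, Fin.isValue, Matrix.cons_val_zero]
      linarith [ha.2]
    · simp only [Fin.mk_one, Fin.isValue, Matrix.cons_val_one, Matrix.cons_val_zero]
      linarith [hb.2]
    · simp only [Fin.reduceFinMk, Fin.isValue, Matrix.cons_val]
      linarith [hc.2]

/-- Every pair of distinct unit vectors is `(pt τ (S p), pt (-τ) (S p))`. Proof: if `y = -x` take
`τ = π / 2`, `h = x` and `m` any unit vector orthogonal to `x`. Otherwise
`m = (x + y) / |x + y|`, `h = (x - y) / |x - y|` (orthogonal, since `|x| = |y|`), and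
`x = cos τ m + sin τ h`, `y = cos τ m - sin τ h` with `cos τ = |x + y| / 2`,
`sin τ = |x - y| / 2 > 0`, `τ = arccos (|x + y| / 2)`. -/
theorem exists_pair {x y : V3} (hx : x ⬝ᵥ x = 1) (hy : y ⬝ᵥ y = 1) (hxy : x ≠ y) :
    ∃ p ∈ Icc (fun _ : Fin 3 => -(4 : ℝ)) (fun _ => 4), ∃ τ ∈ Ioc (0 : ℝ) (π / 2),
      pt τ (S p) = x ∧ pt (-τ) (S p) = y := by
  by_cases hneg : y = -x
  · subst hneg
    obtain ⟨a, _, b, _, h0, h1, h2⟩ := eu_sph hx
    have ea := sin_sq_add_cos_sq a
    have eb := sin_sq_add_cos_sq b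
    have hm : (![cos a * cos b, sin a * cos b, -sin b] : V3) ⬝ᵥ
        ![cos a * cos b, sin a * cos b, -sin b] = 1 := by
      rw [eu_dot]
      simp only [Matrix.cons_val_zero, Matrix.cons_val_one, Matrix.cons_val]
      linear_combination (cos b ^ 2) * ea + eb
    have hmx : (![cos a * cos b, sin a * cos b, -sin b] : V3) ⬝ᵥ x = 0 := by
      rw [eu_dot]
      simp only [Matrix.cons_val_zero, Matrix.cons_val_one, Matrix.cons_val]
      rw [← h0, ← h1, ← h2]
      linear_combination (sin b * cos b) * ea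
    obtain ⟨p, hp, _, hp0⟩ := exists_angles hm hx hmx
    refine ⟨p, hp, π / 2, ⟨by positivity, le_refl _⟩, ?_, ?_⟩
    · unfold pt
      rw [cos_pi_div_two, sin_pi_div_two, hp0]
      simp
    · unfold pt
      rw [cos_neg, sin_neg, cos_pi_div_two, sin_pi_div_two, hp0]
      simp
  · set s : V3 := x + y with hs
    set d : V3 := x - y with hd
    have hs0 : s ≠ 0 := by
      intro h
      apply hneg
      rw [hs] at h
      exact (neg_eq_of_add_eq_zero_right h).symm
    have hd0 : d ≠ 0 := sub_ne_zero.mpr hxy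
    have hss : 0 < s ⬝ᵥ s := by
      have h1 : 0 ≤ s ⬝ᵥ s := by
        rw [eu_dot]
        exact add_nonneg (add_nonneg (mul_self_nonneg _) (mul_self_nonneg _)) (mul_self_nonneg _)
      exact lt_of_le_of_ne h1 fun h => hs0 (dotProduct_self_eq_zero.mp h.symm)
    have hdd : 0 < d ⬝ᵥ d := by
      have h1 : 0 ≤ d ⬝ᵥ d := by
        rw [eu_dot]
        exact add_nonneg (add_nonneg (mul_self_nonneg _) (mul_self_nonneg _)) (mul_self_nonneg _)
      exact lt_of_le_of_ne h1 fun h => hd0 (dotProduct_self_eq_zero.mp h.symm)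
    have hsd : s ⬝ᵥ d = 0 := by
      rw [hs, hd, add_dotProduct, dotProduct_sub, dotProduct_sub, hx, hy, dotProduct_comm y x]
      ring
    have hsum : s ⬝ᵥ s + d ⬝ᵥ d = 4 := by
      rw [hs, hd, add_dotProduct, dotProduct_add, dotProduct_add, sub_dotProduct,
        dotProduct_sub, dotProduct_sub, hx, hy, dotProduct_comm y x]
      ring
    set ls : ℝ := √(s ⬝ᵥ s) with hls
    set ld : ℝ := √(d ⬝ᵥ d) with hld
    have hls0 : 0 < ls := sqrt_pos.mpr hss
    have hld0 : 0 < ld := sqrt_pos.mpr hdd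
    have hls2 : ls ^ 2 = s ⬝ᵥ s := sq_sqrt hss.le
    have hld2 : ld ^ 2 = d ⬝ᵥ d := sq_sqrt hdd.le
    have hm : (ls⁻¹ • s) ⬝ᵥ (ls⁻¹ • s) = 1 := by
      rw [smul_dotProduct, dotProduct_smul, ← hls2]
      simp only [smul_eq_mul]
      field_simp
    have hh : (ld⁻¹ • d) ⬝ᵥ (ld⁻¹ • d) = 1 := by
      rw [smul_dotProduct, dotProduct_smul, ← hld2]
      simp only [smul_eq_mul]
      field_simp
    have hmh : (ls⁻¹ • s) ⬝ᵥ (ld⁻¹ • d) = 0 := by
      rw [smul_dotProduct, dotProduct_smul, hsd]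
      simp
    obtain ⟨p, hp, hp2, hp0⟩ := exists_angles hm hh hmh
    have hlt : ls / 2 < 1 := by
      have : ls ^ 2 < 2 ^ 2 := by
        rw [hls2]
        linarith
      have := lt_of_pow_lt_pow_left₀ 2 (by norm_num) this
      linarith
    have hc : cos (arccos (ls / 2)) = ls / 2 := cos_arccos (by linarith) hlt.le
    have hsn : sin (arccos (ls / 2)) = ld / 2 := by
      rw [sin_arccos]
      have : 1 - (ls / 2) ^ 2 = (ld / 2) ^ 2 := by
        rw [div_pow, div_pow, hls2, hld2]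
        linarith
      rw [this, sqrt_sq (by positivity)]
    have e1 : (ls / 2) • (ls⁻¹ • s) = (1 / 2 : ℝ) • s := by
      rw [smul_smul]
      congr 1
      field_simp
    have e2 : (ld / 2) • (ld⁻¹ • d) = (1 / 2 : ℝ) • d := by
      rw [smul_smul]
      congr 1
      field_simp
    refine ⟨p, hp, arccos (ls / 2), ⟨arccos_pos.mpr hlt, arccos_le_pi_div_two.mpr (by positivity)⟩,
      ?_, ?_⟩
    · unfold pt
      rw [hc, hsn, hp2, hp0, e1, e2, hs, hd]
      funext i
      simp only [Pi.add_apply, Pi.smul_apply, Pi.sub_apply, smul_eq_mul]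
      ring
    · unfold pt
      rw [cos_neg, sin_neg, hc, hsn, hp2, hp0, neg_smul, e1, e2, hs, hd]
      funext i
      simp only [Pi.add_apply, Pi.smul_apply, Pi.sub_apply, Pi.neg_apply, smul_eq_mul]
      ring

end Pool.Agent.Lib.SkewSt
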