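import Pool.Agent.Lib.MP_794fdb_gt.St.Defs
import Pool.Agent.Lib.MP_794fdb_gt.U.Euler1

set_option autoImplicit false

open scoped ContDiff Manifold Topology
open Real Set Matrix

namespace Pool.Agent.Lib.SkewSt

open Pool.Agent.Lib.SkewU

variable {P F : Type} [NormedAddCommGroup P] [NormedSpace ℝ P] [NormedAddCommGroup F]
  [NormedSpace ℝ F]

theorem pt_unit (τ : ℝ) (p : P3) : pt τ (S p) ⬝ᵥ pt τ (S p) = 1 := by
  have hF := S_ON p
  unfold pt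
  simp only [add_dotProduct, dotProduct_add, smul_dotProduct, dotProduct_smul, smul_eq_mul]
  rw [hF 2 2, hF 2 0, hF 0 2, hF 0 0]
  simp only [if_true]
  rw [if_neg (by decide), if_neg (by decide)]
  have := Real.sin_sq_add_cos_sq τ
  nlinarith

theorem fr_pt_ne (τ : ℝ) (p : P3) : pt τ (S p) ≠ 0 := by
  intro h
  have := pt_unit τ p
  rw [h] at this
  simp at this

theorem fr_S_smooth (i : Fin 3) :
    ContDiff ℝ ∞ (fun z : (P × P3) × ℝ => S z.1.2 i) := by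
  have h : ContDiff ℝ ∞ (fun z : (P × P3) × ℝ => S z.1.2) :=
    S_contDiff.comp (contDiff_snd.comp contDiff_fst)
  exact contDiff_pi.1 h i

theorem fr_pt_smooth : ContDiff ℝ ∞ (fun z : (P × P3) × ℝ => pt z.2 (S z.1.2)) := by
  unfold pt
  exact ((Real.contDiff_cos.comp contDiff_snd).smul (fr_S_smooth 2)).add
    ((Real.contDiff_sin.comp contDiff_snd).smul (fr_S_smooth 0))

theorem fr_arg_smooth : ContDiff ℝ ∞ (fun z : (P × P3) × ℝ => (z.1.1, pt z.2 (S z.1.2))) :=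
  (contDiff_fst.comp contDiff_fst).prodMk fr_pt_smooth

theorem cc_smooth {Φ : P × V3 → F} (hΦ : ∀ q : P × V3, q.2 ≠ 0 → ContDiffAt ℝ ∞ Φ q) :
    ContDiff ℝ ∞ (cc Φ) := by
  rw [contDiff_iff_contDiffAt]
  intro z
  have h := hΦ (z.1.1, pt z.2 (S z.1.2)) (fr_pt_ne _ _)
  exact ContDiffAt.comp z h (fr_arg_smooth.contDiffAt)

theorem fr_partial {Φ : P × V3 → F} {t : P} {x : V3} (h : DifferentiableAt ℝ Φ (t, x)) (v : V3) :
    fderiv ℝ (fun q => Φ (t, q)) x v = fderiv ℝ Φ (t, x) (0, v) := by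
  have h1 : HasFDerivAt (fun q : V3 => (t, q)) (ContinuousLinearMap.inr ℝ P V3) x :=
    hasFDerivAt_prodMk_right t x
  have h2 : HasFDerivAt (fun q => Φ (t, q)) ((fderiv ℝ Φ (t, x)).comp
      (ContinuousLinearMap.inr ℝ P V3)) x := h.hasFDerivAt.comp x h1
  rw [h2.fderiv]
  rfl

theorem kk_smooth {Φ : P × V3 → F} (hΦ : ∀ q : P × V3, q.2 ≠ 0 → ContDiffAt ℝ ∞ Φ q) :
    ContDiff ℝ ∞ (kk Φ) := by
  have e : kk Φ = fun z => fderiv ℝ Φ (z.1.1, pt z.2 (S z.1.2)) (0, S z.1.2 1) := by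
    funext z
    exact fr_partial ((hΦ _ (fr_pt_ne _ _)).differentiableAt (by simp)) _
  rw [e, contDiff_iff_contDiffAt]
  intro z
  have h := hΦ (z.1.1, pt z.2 (S z.1.2)) (fr_pt_ne _ _)
  have h1 : ContDiffAt ℝ ∞ (fderiv ℝ Φ) (z.1.1, pt z.2 (S z.1.2)) :=
    h.fderiv_right (by exact_mod_cast le_rfl)
  have h2 : ContDiffAt ℝ ∞ (fun z : (P × P3) × ℝ => fderiv ℝ Φ (z.1.1, pt z.2 (S z.1.2))) z :=
    ContDiffAt.comp z h1 (fr_arg_smooth.contDiffAt)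
  have h3 : ContDiffAt ℝ ∞ (fun z : (P × P3) × ℝ => ((0 : P), S z.1.2 1)) z :=
    (contDiff_const.prodMk (fr_S_smooth 1)).contDiffAt
  exact h2.clm_apply h3

theorem cc_dT {Φ : P × V3 → F} (hΦ : ∀ q : P × V3, q.2 ≠ 0 → ContDiffAt ℝ ∞ Φ q)
    (z : (P × P3) × ℝ) :
    dT (cc Φ) z = fderiv ℝ (fun q => Φ (z.1.1, q)) (pt z.2 (S z.1.2)) (vt z.2 (S z.1.2)) := by
  have hd : DifferentiableAt ℝ Φ (z.1.1, pt z.2 (S z.1.2)) :=
    (hΦ (z.1.1, pt z.2 (S z.1.2)) (fr_pt_ne _ _)).differentiableAt (by simp)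
  have h1 : DifferentiableAt ℝ (fun q : V3 => Φ (z.1.1, q)) (pt z.2 (S z.1.2)) := by
    have := hd.comp (pt z.2 (S z.1.2))
      (hasFDerivAt_prodMk_right (𝕜 := ℝ) z.1.1 (pt z.2 (S z.1.2))).differentiableAt
    exact this
  have h2 : HasDerivAt (fun σ : ℝ => pt σ (S z.1.2)) (vt z.2 (S z.1.2)) z.2 := by
    unfold pt vt
    exact ((hasDerivAt_cos z.2).smul_const _).add ((hasDerivAt_sin z.2).smul_const _)
  have h3 := h1.hasFDerivAt.comp_hasDerivAt z.2 h2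
  unfold dT cc
  exact h3.deriv

theorem tangent_comb (τ : ℝ) (p : P3) {v : V3} (hv : pt τ (S p) ⬝ᵥ v = 0) :
    ∃ a b : ℝ, v = a • vt τ (S p) + b • S p 1 := by
  have hF := S_ON p
  -- the columns
  have h00 : S p 0 ⬝ᵥ S p 0 = 1 := by simpa using hF 0 0
  have h11 : S p 1 ⬝ᵥ S p 1 = 1 := by simpa using hF 1 1
  have h22 : S p 2 ⬝ᵥ S p 2 = 1 := by simpa using hF 2 2
  have h01 : S p 0 ⬝ᵥ S p 1 = 0 := by simpa using hF 0 1
  have h02 : S p 0 ⬝ᵥ S p 2 = 0 := by simpa using hF 0 2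
  have h12 : S p 1 ⬝ᵥ S p 2 = 0 := by simpa using hF 1 2
  have hM : (Matrix.of (S p)) * (Matrix.of (S p))ᵀ = 1 := by
    funext i j
    rw [Matrix.one_apply]
    exact hF i j
  have hM' : (Matrix.of (S p))ᵀ * (Matrix.of (S p)) = 1 := mul_eq_one_comm.1 hM
  have hexp : ∀ w : V3, w = (S p 0 ⬝ᵥ w) • S p 0 + (S p 1 ⬝ᵥ w) • S p 1 + (S p 2 ⬝ᵥ w) • S p 2 := by
    intro w
    have h1 : (Matrix.of (S p))ᵀ *ᵥ ((Matrix.of (S p)) *ᵥ w) = w := by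
      rw [Matrix.mulVec_mulVec, hM', Matrix.one_mulVec]
    funext i
    have h2 := congrFun h1 i
    rw [← h2]
    simp only [Matrix.mulVec, dotProduct, Fin.sum_univ_three, Matrix.transpose_apply,
      Matrix.of_apply, Pi.add_apply, Pi.smul_apply, smul_eq_mul]
    ring
  have hv' : cos τ * (S p 2 ⬝ᵥ v) + sin τ * (S p 0 ⬝ᵥ v) = 0 := by
    unfold pt at hv
    simpa [add_dotProduct, smul_dotProduct] using hv
  refine ⟨-(sin τ) * (S p 2 ⬝ᵥ v) + cos τ * (S p 0 ⬝ᵥ v), S p 1 ⬝ᵥ v, ?_⟩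
  have h3 := hexp v
  have hc := Real.sin_sq_add_cos_sq τ
  have e2 : S p 2 ⬝ᵥ v = (-(sin τ) * (S p 2 ⬝ᵥ v) + cos τ * (S p 0 ⬝ᵥ v)) * -(sin τ) := by
    linear_combination (-(S p 2 ⬝ᵥ v)) * hc + cos τ * hv'
  have e0 : S p 0 ⬝ᵥ v = (-(sin τ) * (S p 2 ⬝ᵥ v) + cos τ * (S p 0 ⬝ᵥ v)) * cos τ := by
    linear_combination (-(S p 0 ⬝ᵥ v)) * hc + sin τ * hv'
  unfold vt
  funext i
  have h4 := congrFun h3 i
  simp only [Pi.add_apply, Pi.smul_apply, smul_eq_mul] at h4 ⊢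
  rw [h4]
  linear_combination (S p 0 i) * e0 + (S p 2 i) * e2

end Pool.Agent.Lib.SkewSt
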