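import Pool.Agent.Lib.MP_794fdb_gt.St.Defs

set_option autoImplicit false

open scoped ContDiff Manifold Topology
open Real Set Matrix MeasureTheory

namespace Pool.Agent.Lib.SkewSt

open Pool.Agent.Lib.SkewU

variable {W F : Type} [NormedAddCommGroup W] [NormedSpace ℝ W] [NormedAddCommGroup F]
  [NormedSpace ℝ F]

theorem ha_curve (w : W) (σ : ℝ) : HasDerivAt (fun σ : ℝ => (w, σ)) ((0 : W), (1 : ℝ)) σ :=
  (hasDerivAt_const σ w).prodMk (hasDerivAt_id σ)

theorem ha_hasDerivAt {g : W × ℝ → F} (hg : ContDiff ℝ ∞ g) (w : W) (σ : ℝ) :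
    HasDerivAt (fun σ => g (w, σ)) (fderiv ℝ g (w, σ) (0, 1)) σ := by
  have h1 : HasFDerivAt g (fderiv ℝ g (w, σ)) (w, σ) :=
    ((hg.differentiable (by simp)) (w, σ)).hasFDerivAt
  exact h1.comp_hasDerivAt σ (ha_curve w σ)

theorem ha_dT {g : W × ℝ → F} (hg : ContDiff ℝ ∞ g) (z : W × ℝ) :
    dT g z = fderiv ℝ g z (0, 1) := (ha_hasDerivAt hg z.1 z.2).deriv

theorem ha_hasDerivAt' {g : W × ℝ → F} (hg : ContDiff ℝ ∞ g) (w : W) (σ : ℝ) :
    HasDerivAt (fun σ => g (w, σ)) (dT g (w, σ)) σ := by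
  rw [ha_dT hg]
  exact ha_hasDerivAt hg w σ

theorem ha_neg {g : W × ℝ → F} (hg : ContDiff ℝ ∞ g) (w : W) (σ : ℝ) :
    HasDerivAt (fun σ => g (w, -σ)) (-(dT g (w, -σ))) σ := by
  have h1 := (ha_hasDerivAt' hg w (-σ)).scomp σ (hasDerivAt_neg σ)
  refine h1.congr_deriv ?_
  rw [neg_smul, one_smul]

/-- Proof: `dT g z = fderiv ℝ g z (0, 1)` (chain rule), and `ContDiff.fderiv_right`. -/
theorem dT_smooth {g : W × ℝ → F} (hg : ContDiff ℝ ∞ g) : ContDiff ℝ ∞ (dT g) := by
  have h1 : dT g = fun z => fderiv ℝ g z ((0 : W), (1 : ℝ)) := funext fun z => ha_dT hg z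
  rw [h1]
  exact (hg.fderiv_right (m := ∞) (by simp)).clm_apply contDiff_const

/-- First difference quotient. Proof: `q (w, τ) = ∫ s in 0..1, dT g (w, τ * (2 * s - 1))`;
continuity by `intervalIntegral.continuous_parametric_intervalIntegral_of_continuous'`, the
formula by the fundamental theorem of calculus applied to `s ↦ g (w, τ * (2 * s - 1))`. -/
theorem exists_odd1 [CompleteSpace F] {g : W × ℝ → F} (hg : ContDiff ℝ ∞ g) :
    ∃ q : W × ℝ → F, Continuous q ∧
      (∀ w τ, (2 * τ) • q (w, τ) = g (w, τ) - g (w, -τ)) ∧ ∀ w, q (w, 0) = dT g (w, 0) := by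
  have hc : Continuous (dT g) := (dT_smooth hg).continuous
  refine ⟨fun z => ∫ s in (0 : ℝ)..1, dT g (z.1, z.2 * (2 * s - 1)), ?_, ?_, ?_⟩
  · apply intervalIntegral.continuous_parametric_intervalIntegral_of_continuous'
    have h1 : Continuous fun p : (W × ℝ) × ℝ => (p.1.1, p.1.2 * (2 * p.2 - 1)) := by fun_prop
    exact hc.comp h1
  · intro w τ
    have h1 : ∀ s : ℝ, HasDerivAt (fun s => g (w, τ * (2 * s - 1)))
        ((2 * τ) • dT g (w, τ * (2 * s - 1))) s := by
      intro s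
      have h2 : HasDerivAt (fun s : ℝ => τ * (2 * s - 1)) (2 * τ) s := by
        have := (((hasDerivAt_id s).const_mul 2).sub_const 1).const_mul τ
        simpa [mul_comm] using this
      exact (ha_hasDerivAt' hg w (τ * (2 * s - 1))).scomp s h2
    have h3 := intervalIntegral.integral_eq_sub_of_hasDerivAt (a := 0) (b := 1)
      (fun s _ => h1 s) (by
        apply Continuous.intervalIntegrable
        have h4 : Continuous fun s : ℝ => (w, τ * (2 * s - 1)) := by fun_prop
        exact (hc.comp h4).const_smul _)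
    rw [intervalIntegral.integral_smul] at h3
    rw [h3]
    norm_num
  · intro w
    simp

/-- Third difference quotient. Proof: with `q1` from `exists_odd1` for `dT (dT g)`, put
`q (w, τ) = ∫ r in 0..1, (-(2 * r ^ 2)) • q1 (w, r * τ)`. For fixed `w` the function
`f τ = g (w, τ) - g (w, -τ) - τ • (dT g (w, τ) + dT g (w, -τ))` has `f 0 = 0` and
`f' τ = - τ • (dT (dT g) (w, τ) - dT (dT g) (w, -τ)) = -(2 * τ ^ 2) • q1 (w, τ)`, so
`f τ = ∫ r in 0..1, τ • f' (r * τ) = τ ^ 3 • q (w, τ)`. -/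
theorem exists_odd3 [CompleteSpace F] {g : W × ℝ → F} (hg : ContDiff ℝ ∞ g) :
    ∃ q : W × ℝ → F, Continuous q ∧
      (∀ w τ, τ ^ 3 • q (w, τ) =
        g (w, τ) - g (w, -τ) - τ • (dT g (w, τ) + dT g (w, -τ))) ∧
      ∀ w, q (w, 0) = (-(2 / 3) : ℝ) • dT (dT (dT g)) (w, 0) := by
  have hg1 := dT_smooth hg
  have hg2 := dT_smooth hg1
  obtain ⟨q1, hq1, hq2, hq3⟩ := exists_odd1 hg2
  refine ⟨fun z => ∫ r in (0 : ℝ)..1, (-(2 * r ^ 2) : ℝ) • q1 (z.1, r * z.2), ?_, ?_, ?_⟩
  · apply intervalIntegral.continuous_parametric_intervalIntegral_of_continuous'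
    have h1 : Continuous fun p : (W × ℝ) × ℝ => (p.1.1, p.2 * p.1.2) := by fun_prop
    have h2 : Continuous fun p : (W × ℝ) × ℝ => (-(2 * p.2 ^ 2) : ℝ) := by fun_prop
    exact h2.smul (hq1.comp h1)
  · intro w τ
    set f : ℝ → F := fun τ => g (w, τ) - g (w, -τ) - τ • (dT g (w, τ) + dT g (w, -τ)) with hf
    have hd : ∀ τ, HasDerivAt f ((-(2 * τ ^ 2) : ℝ) • q1 (w, τ)) τ := by
      intro τ
      have h1 := (ha_hasDerivAt' hg w τ).sub (ha_neg hg w τ)
      have h2 := (ha_hasDerivAt' hg1 w τ).add (ha_neg hg1 w τ)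
      have h3 := h1.sub ((hasDerivAt_id τ).smul h2)
      refine h3.congr_deriv ?_
      have h4 := hq2 w τ
      have h5 : (-(2 * τ ^ 2) : ℝ) • q1 (w, τ) = -(τ • ((2 * τ) • q1 (w, τ))) := by
        rw [smul_smul, ← neg_smul]
        congr 1
        ring
      rw [h5, h4]
      simp only [id_eq, one_smul, Pi.add_apply]
      rw [smul_sub, smul_add, smul_neg]
      abel
    have h1 : ∀ r : ℝ, HasDerivAt (fun r => f (r * τ))
        (τ • ((-(2 * (r * τ) ^ 2) : ℝ) • q1 (w, r * τ))) r := by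
      intro r
      have h2 : HasDerivAt (fun r : ℝ => r * τ) τ r := by
        have := (hasDerivAt_id r).mul_const τ
        simpa using this
      exact (hd (r * τ)).scomp r h2
    have h3 := intervalIntegral.integral_eq_sub_of_hasDerivAt (a := 0) (b := 1)
      (fun r _ => h1 r) (by
        apply Continuous.intervalIntegrable
        have h4 : Continuous fun r : ℝ => (w, r * τ) := by fun_prop
        have h5 : Continuous fun r : ℝ => (-(2 * (r * τ) ^ 2) : ℝ) := by fun_prop
        exact (h5.smul (hq1.comp h4)).const_smul _)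
    have h6 : f (0 * τ) = 0 := by
      rw [hf]
      simp
    have h7 : f (1 * τ) = f τ := by rw [one_mul]
    rw [h6, h7, sub_zero] at h3
    change _ = f τ
    rw [← h3, ← intervalIntegral.integral_smul]
    refine intervalIntegral.integral_congr fun r _ => ?_
    simp only
    rw [smul_smul, smul_smul]
    congr 1
    ring
  · intro w
    simp only [mul_zero]
    rw [intervalIntegral.integral_smul_const, hq3]
    congr 1
    rw [intervalIntegral.integral_neg, intervalIntegral.integral_const_mul, integral_pow]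
    norm_num

end Pool.Agent.Lib.SkewSt
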