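import Pool.Agent.Lib.MP_794fdb_gt.St.FR

set_option autoImplicit false

open scoped ContDiff Manifold Topology
open Real Set Matrix

namespace Pool.Agent.Lib.SkewSt

open Pool.Agent.Lib.SkewU

variable {F : Type} [NormedAddCommGroup F] [NormedSpace ℝ F]

/-- Linear algebra behind the next theorems. -/
theorem five_indep {c₁ c₂ c₁' c₂' k₁ k₂ u₂ u₃ u₄ : F} {τ : ℝ} (hτ : τ ≠ 0)
    (h2 : (2 * τ) • u₂ = c₁' - c₂') (h3 : (2 * τ) • u₃ = k₁ - k₂)
    (h4 : τ ^ 3 • u₄ = c₁ - c₂ - τ • (c₁' + c₂')) :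
    LinearIndependent ℝ ![(1 / 2 : ℝ) • (c₁' + c₂'), (1 / 2 : ℝ) • (k₁ + k₂), u₂, u₃, u₄] ↔
      ∀ s a b a' b' : ℝ, s • (c₁ - c₂) + (a • c₁' + b • k₁) + (a' • c₂' + b' • k₂) = 0 →
        s = 0 ∧ a = 0 ∧ b = 0 ∧ a' = 0 ∧ b' = 0 := by
  have hd : c₁ - c₂ = τ ^ 3 • u₄ + τ • (c₁' + c₂') := by rw [h4]; abel
  rw [Fintype.linearIndependent_iff]
  constructor
  · intro h s a b a' b' hr
    -- s (c₁ - c₂) + ... = s τ³ u₄ + (s τ)(c₁'+c₂') + ...
    have key : ∑ i, (![2 * (s * τ) + (a + a'), b + b', (a - a') * τ, (b - b') * τ, s * τ ^ 3] :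
        Fin 5 → ℝ) i • (![(1 / 2 : ℝ) • (c₁' + c₂'), (1 / 2 : ℝ) • (k₁ + k₂), u₂, u₃, u₄] :
        Fin 5 → F) i = 0 := by
      rw [← hr, hd, Fin.sum_univ_five]
      simp only [Matrix.cons_val]
      have e2 : ((a - a') * τ) • u₂ = ((a - a') / 2) • (c₁' - c₂') := by
        rw [← h2, smul_smul]; congr 1; ring
      have e3 : ((b - b') * τ) • u₃ = ((b - b') / 2) • (k₁ - k₂) := by
        rw [← h3, smul_smul]; congr 1; ring
      rw [e2, e3]
      module
    have h' := h _ key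
    have g0 := h' 0
    have g1 := h' 1
    have g2 := h' 2
    have g3 := h' 3
    have g4 := h' 4
    simp only [Matrix.cons_val] at g0 g1 g2 g3 g4
    have hs : s = 0 := (mul_eq_zero.1 g4).resolve_right (pow_ne_zero 3 hτ)
    have ha : a - a' = 0 := (mul_eq_zero.1 g2).resolve_right hτ
    have hb : b - b' = 0 := (mul_eq_zero.1 g3).resolve_right hτ
    rw [hs] at g0
    exact ⟨hs, by linarith, by linarith, by linarith, by linarith⟩
  · intro h g hg
    rw [Fin.sum_univ_five] at hg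
    simp only [Matrix.cons_val] at hg
    have hr : (g 4 / τ ^ 3) • (c₁ - c₂) +
        ((g 0 / 2 - g 4 / τ ^ 2 + g 2 / (2 * τ)) • c₁' + (g 1 / 2 + g 3 / (2 * τ)) • k₁) +
        ((g 0 / 2 - g 4 / τ ^ 2 - g 2 / (2 * τ)) • c₂' + (g 1 / 2 - g 3 / (2 * τ)) • k₂) = 0 := by
      rw [← hg]
      have e2 : g 2 • u₂ = (g 2 / (2 * τ)) • (c₁' - c₂') := by
        rw [← h2, smul_smul]; congr 1; field_simp
      have e3 : g 3 • u₃ = (g 3 / (2 * τ)) • (k₁ - k₂) := by
        rw [← h3, smul_smul]; congr 1; field_simp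
      have e4 : g 4 • u₄ = (g 4 / τ ^ 3) • (c₁ - c₂) - (g 4 / τ ^ 2) • (c₁' + c₂') := by
        have : (g 4 / τ ^ 3) • (τ ^ 3 • u₄) = g 4 • u₄ := by
          rw [smul_smul]; congr 1; field_simp
        rw [← this, h4, smul_sub, smul_smul]
        congr 2
        field_simp
      rw [e2, e3, e4]
      module
    obtain ⟨i1, i2, i3, i4, i5⟩ := h _ _ _ _ _ hr
    have g4 : g 4 = 0 := (div_eq_zero_iff.1 i1).resolve_right (pow_ne_zero 3 hτ)
    rw [g4] at i2 i4
    have h2τ : (2 * τ) ≠ 0 := mul_ne_zero two_ne_zero hτ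
    have g2 : g 2 / (2 * τ) = 0 := by linarith
    have g3 : g 3 / (2 * τ) = 0 := by linarith
    have g2' : g 2 = 0 := (div_eq_zero_iff.1 g2).resolve_right h2τ
    have g3' : g 3 = 0 := (div_eq_zero_iff.1 g3).resolve_right h2τ
    have g0' : g 0 = 0 := by
      rw [g2'] at i2
      simp at i2
      exact i2
    have g1' : g 1 = 0 := by
      rw [g3'] at i3
      simp at i3
      exact i3
    intro i
    fin_cases i
    · exact g0'
    · exact g1'
    · exact g2'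
    · exact g3'
    · exact g4

end Pool.Agent.Lib.SkewSt
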