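import Pool.Agent.Lib.MP_794fdb_gt.St.TA
import Pool.Agent.Lib.MP_794fdb_gt.St.EU
import Pool.Agent.Lib.MP_794fdb_gt.St.HA
import Pool.Agent.Lib.MP_794fdb_gt.St.FR
import Pool.Agent.Lib.MP_794fdb_gt.St.RE

set_option autoImplicit false

open scoped ContDiff Manifold Topology
open Real Set Matrix

namespace Pool.Agent.Lib.SkewSt

open Pool.Agent.TotallySkew Pool.Agent.Lib.SkewU

variable {F : Type} [NormedAddCommGroup F] [NormedSpace ℝ F]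

/-- Independence of the two tangent planes and the chord at `pt τ (S p)`, `pt (-τ) (S p)`. -/
def Rel (φ : S2 → F) (p : P3) (τ : ℝ) : Prop :=
  ∀ s a b a' b' : ℝ, s • (ex φ (pt τ (S p)) - ex φ (pt (-τ) (S p))) +
      (a • fderiv ℝ (ex φ) (pt τ (S p)) (vt τ (S p)) +
        b • fderiv ℝ (ex φ) (pt τ (S p)) (S p 1)) +
      (a' • fderiv ℝ (ex φ) (pt (-τ) (S p)) (vt (-τ) (S p)) +
        b' • fderiv ℝ (ex φ) (pt (-τ) (S p)) (S p 1)) = 0 →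
    s = 0 ∧ a = 0 ∧ b = 0 ∧ a' = 0 ∧ b' = 0

theorem as_vals (p : P3) : (S p 0 ⬝ᵥ S p 0 = 1 ∧ S p 1 ⬝ᵥ S p 1 = 1 ∧ S p 2 ⬝ᵥ S p 2 = 1) ∧
    S p 0 ⬝ᵥ S p 1 = 0 ∧ S p 0 ⬝ᵥ S p 2 = 0 ∧ S p 2 ⬝ᵥ S p 0 = 0 ∧ S p 2 ⬝ᵥ S p 1 = 0 ∧
    S p 1 ⬝ᵥ S p 0 = 0 ∧ S p 1 ⬝ᵥ S p 2 = 0 := by
  have hF := S_ON p
  refine ⟨⟨?_, ?_, ?_⟩, ?_, ?_, ?_, ?_, ?_, ?_⟩
  · simpa using hF 0 0
  · simpa using hF 1 1
  · simpa using hF 2 2
  · simpa using hF 0 1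
  · simpa using hF 0 2
  · simpa using hF 2 0
  · simpa using hF 2 1
  · simpa using hF 1 0
  · simpa using hF 1 2

theorem as_pt_vt (τ : ℝ) (p : P3) (a b : ℝ) :
    pt τ (S p) ⬝ᵥ (a • vt τ (S p) + b • S p 1) = 0 := by
  obtain ⟨⟨h00, h11, h22⟩, h01, h02, h20, h21, h10, h12⟩ := as_vals p
  unfold pt vt
  simp only [add_dotProduct, dotProduct_add, smul_dotProduct, dotProduct_smul, smul_eq_mul,
    h00, h22, h01, h02, h20, h21]
  ring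

theorem as_comb_zero {τ : ℝ} {p : P3} {a b : ℝ} (h : a • vt τ (S p) + b • S p 1 = 0) :
    a = 0 ∧ b = 0 := by
  obtain ⟨⟨h00, h11, h22⟩, h01, h02, h20, h21, h10, h12⟩ := as_vals p
  have h1 : vt τ (S p) ⬝ᵥ (a • vt τ (S p) + b • S p 1) = 0 := by rw [h, dotProduct_zero]
  have h2 : S p 1 ⬝ᵥ (a • vt τ (S p) + b • S p 1) = 0 := by rw [h, dotProduct_zero]
  unfold vt at h1 h2
  simp only [add_dotProduct, dotProduct_add, smul_dotProduct, dotProduct_smul, smul_eq_mul,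
    h00, h11, h22, h01, h02, h20, h21, h10, h12] at h1 h2
  have hc := Real.sin_sq_add_cos_sq τ
  refine ⟨?_, ?_⟩
  · linear_combination h1 - a * hc
  · linear_combination h2

theorem as_ne {τ : ℝ} (hτ : τ ∈ Ioc (0 : ℝ) (π / 2)) (p : P3) :
    pt τ (S p) ≠ pt (-τ) (S p) := by
  obtain ⟨⟨h00, h11, h22⟩, h01, h02, h20, h21, h10, h12⟩ := as_vals p
  intro h
  have h1 : S p 0 ⬝ᵥ pt τ (S p) = S p 0 ⬝ᵥ pt (-τ) (S p) := by rw [h]
  unfold pt at h1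
  simp only [dotProduct_add, dotProduct_smul, smul_eq_mul, h00, h02, Real.cos_neg,
    Real.sin_neg] at h1
  have hs : 0 < sin τ := Real.sin_pos_of_pos_of_lt_pi hτ.1 (by linarith [hτ.2, Real.pi_pos])
  linarith

/-- Total skewness through the relation `Rel`. -/
theorem as_ts {φ : S2 → F} (hφ : ContMDiff (𝓡 2) 𝓘(ℝ, F) ∞ φ)
    (h : ∀ p ∈ Icc (fun _ : Fin 3 => -(4 : ℝ)) (fun _ => 4), ∀ τ ∈ Ioc (0 : ℝ) (π / 2),
      Rel φ p τ) : IsTotallySkewEmbedding (𝓡 2) φ := by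
  rw [ts_iff hφ]
  intro x y hx hy hxy s v w hv hw hr
  obtain ⟨p, hp, τ, hτ, rfl, rfl⟩ := exists_pair hx hy hxy
  obtain ⟨a, b, rfl⟩ := tangent_comb τ p hv
  obtain ⟨a', b', rfl⟩ := tangent_comb (-τ) p hw
  obtain ⟨h1, h2, h3, h4, h5⟩ := h p hp τ hτ s a b a' b' (by
    rw [← hr]
    simp only [map_add, map_smul])
  subst h1 h2 h3 h4 h5
  simp

theorem as_rel {φ : S2 → F} (hφ : IsTotallySkewEmbedding (𝓡 2) φ) (p : P3) {τ : ℝ}
    (hτ : τ ∈ Ioc (0 : ℝ) (π / 2)) : Rel φ p τ := by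
  intro s a b a' b' hr
  have h := (ts_iff hφ.1).1 hφ (pt τ (S p)) (pt (-τ) (S p)) (pt_unit τ p) (pt_unit (-τ) p)
    (as_ne hτ p) s (a • vt τ (S p) + b • S p 1) (a' • vt (-τ) (S p) + b' • S p 1)
    (as_pt_vt τ p a b) (as_pt_vt (-τ) p a' b') (by
      rw [← hr]
      simp only [map_add, map_smul])
  obtain ⟨h1, h2, h3⟩ := h
  obtain ⟨h4, h5⟩ := as_comb_zero h2
  obtain ⟨h6, h7⟩ := as_comb_zero h3
  exact ⟨h1, h4, h5, h6, h7⟩

/-- The frame at the diagonal. -/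
theorem as_diag {P : Type} {Φ : P × V3 → F} {t : P} {p : P3} {φ : S2 → F}
    (hφ : ∀ q, Φ (t, q) = ex φ q) (hc : LinearIndependent ℝ (cubic φ p)) {v2 v3 v4 : F}
    (h2 : v2 = dT (dT (cc Φ)) ((t, p), 0)) (h3 : v3 = dT (kk Φ) ((t, p), 0))
    (h4 : v4 = (-(2 / 3) : ℝ) • dT (dT (dT (cc Φ))) ((t, p), 0)) :
    LinearIndependent ℝ ![(1 / 2 : ℝ) • (dT (cc Φ) ((t, p), 0) + dT (cc Φ) ((t, p), -0)),
      (1 / 2 : ℝ) • (kk Φ ((t, p), 0) + kk Φ ((t, p), -0)), v2, v3, v4] := by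
  have f0 : (fun σ : ℝ => cc Φ ((t, p), σ)) = fun σ => ex φ (pt σ (S p)) := by
    funext σ
    exact hφ _
  have hq : (fun q => Φ (t, q)) = ex φ := funext hφ
  have f1 : (fun σ : ℝ => kk Φ ((t, p), σ)) =
      fun σ => fderiv ℝ (ex φ) (pt σ (S p)) (S p 1) := by
    funext σ
    unfold kk
    rw [hq]
  have g0 : (fun σ : ℝ => dT (cc Φ) ((t, p), σ)) = deriv (fun σ => ex φ (pt σ (S p))) := by
    funext σ
    unfold dT
    rw [f0]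
  have g1 : (fun σ : ℝ => dT (dT (cc Φ)) ((t, p), σ)) =
      deriv (deriv (fun σ => ex φ (pt σ (S p)))) := by
    funext σ
    have : dT (dT (cc Φ)) ((t, p), σ) = deriv (fun σ' => dT (cc Φ) ((t, p), σ')) σ := rfl
    rw [this, g0]
  have g2 : dT (dT (dT (cc Φ))) ((t, p), 0) =
      deriv (deriv (deriv (fun σ => ex φ (pt σ (S p))))) 0 := by
    have : dT (dT (dT (cc Φ))) ((t, p), 0) = deriv (fun σ' => dT (dT (cc Φ)) ((t, p), σ')) 0 :=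
      rfl
    rw [this, g1]
  have g3 : dT (kk Φ) ((t, p), 0) =
      deriv (fun τ => fderiv ℝ (ex φ) (pt τ (S p)) (S p 1)) 0 := by
    have : dT (kk Φ) ((t, p), 0) = deriv (fun σ' => kk Φ ((t, p), σ')) 0 := rfl
    rw [this, f1]
  have e0 : (1 / 2 : ℝ) • (dT (cc Φ) ((t, p), 0) + dT (cc Φ) ((t, p), -0)) = cubic φ p 0 := by
    rw [neg_zero, ← two_smul ℝ (dT (cc Φ) ((t, p), 0)), smul_smul, one_div,
      inv_mul_cancel₀ two_ne_zero, one_smul]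
    exact congrFun g0 0
  have e1 : (1 / 2 : ℝ) • (kk Φ ((t, p), 0) + kk Φ ((t, p), -0)) = cubic φ p 1 := by
    rw [neg_zero, ← two_smul ℝ (kk Φ ((t, p), 0)), smul_smul, one_div,
      inv_mul_cancel₀ two_ne_zero, one_smul]
    exact congrFun f1 0
  have e2 : v2 = cubic φ p 2 := h2.trans (congrFun g1 0)
  have e3 : v3 = cubic φ p 3 := h3.trans g3
  have e4 : v4 = (-(2 / 3) : ℝ) • cubic φ p 4 := by
    rw [h4, g2]
    rfl
  rw [e0, e1, e2, e3, e4, Fintype.linearIndependent_iff]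
  intro g hg
  rw [Fintype.linearIndependent_iff] at hc
  have h1 := hc ![g 0, g 1, g 2, g 3, g 4 * (-(2 / 3))] (by
    rw [Fin.sum_univ_five] at hg ⊢
    simp only [Matrix.cons_val, smul_smul] at hg ⊢
    exact hg)
  intro i
  fin_cases i
  · exact h1 0
  · exact h1 1
  · exact h1 2
  · exact h1 3
  · have h2 := h1 4
    simp only [Matrix.cons_val] at h2
    show g 4 = 0
    linarith

/-- The frame off the diagonal. -/
theorem as_off {P : Type} [NormedAddCommGroup P] [NormedSpace ℝ P] {Φ : P × V3 → F}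
    (hΦ : ∀ q : P × V3, q.2 ≠ 0 → ContDiffAt ℝ ∞ Φ q) {t : P} {p : P3} {φ : S2 → F}
    (hφ : ∀ q, Φ (t, q) = ex φ q) {τ : ℝ} (hτ : 0 < τ) {v2 v3 v4 : F}
    (h2 : (2 * τ) • v2 = dT (cc Φ) ((t, p), τ) - dT (cc Φ) ((t, p), -τ))
    (h3 : (2 * τ) • v3 = kk Φ ((t, p), τ) - kk Φ ((t, p), -τ))
    (h4 : τ ^ 3 • v4 = cc Φ ((t, p), τ) - cc Φ ((t, p), -τ) -
      τ • (dT (cc Φ) ((t, p), τ) + dT (cc Φ) ((t, p), -τ))) :
    LinearIndependent ℝ ![(1 / 2 : ℝ) • (dT (cc Φ) ((t, p), τ) + dT (cc Φ) ((t, p), -τ)),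
      (1 / 2 : ℝ) • (kk Φ ((t, p), τ) + kk Φ ((t, p), -τ)), v2, v3, v4] ↔ Rel φ p τ := by
  rw [five_indep hτ.ne' h2 h3 h4]
  have hq : (fun q => Φ (t, q)) = ex φ := funext hφ
  have d1 : ∀ σ, dT (cc Φ) ((t, p), σ) = fderiv ℝ (ex φ) (pt σ (S p)) (vt σ (S p)) := by
    intro σ
    rw [cc_dT hΦ, hq]
  have d2 : ∀ σ, kk Φ ((t, p), σ) = fderiv ℝ (ex φ) (pt σ (S p)) (S p 1) := by
    intro σ
    unfold kk
    rw [hq]
  have d3 : ∀ σ, cc Φ ((t, p), σ) = ex φ (pt σ (S p)) := fun σ => hφ _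
  rw [d1, d1, d2, d2, d3, d3]
  rfl

/-- The frame, as a continuous function. -/
theorem as_frame [CompleteSpace F] {P : Type} [NormedAddCommGroup P] [NormedSpace ℝ P]
    {Φ : P × V3 → F} (hΦ : ∀ q : P × V3, q.2 ≠ 0 → ContDiffAt ℝ ∞ Φ q) :
    ∃ U : P × (P3 × ℝ) → Fin 5 → F, Continuous U ∧
      (∀ t p (φ : S2 → F), (∀ q, Φ (t, q) = ex φ q) → LinearIndependent ℝ (cubic φ p) →
        LinearIndependent ℝ (U (t, p, 0))) ∧
      ∀ t p (φ : S2 → F), (∀ q, Φ (t, q) = ex φ q) → ∀ τ, 0 < τ →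
        (LinearIndependent ℝ (U (t, p, τ)) ↔ Rel φ p τ) := by
  have hcc := cc_smooth hΦ
  have hkk := kk_smooth hΦ
  have hc1 := dT_smooth hcc
  obtain ⟨u2, hu2c, hu2, hu20⟩ := exists_odd1 hc1
  obtain ⟨u3, hu3c, hu3, hu30⟩ := exists_odd1 hkk
  obtain ⟨u4, hu4c, hu4, hu40⟩ := exists_odd3 hcc
  have e1 : Continuous fun z : P × (P3 × ℝ) => (((z.1, z.2.1), z.2.2) : (P × P3) × ℝ) := by
    fun_prop
  have e2 : Continuous fun z : P × (P3 × ℝ) => (((z.1, z.2.1), -z.2.2) : (P × P3) × ℝ) := by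
    fun_prop
  refine ⟨fun z => ![(1 / 2 : ℝ) • (dT (cc Φ) ((z.1, z.2.1), z.2.2) +
      dT (cc Φ) ((z.1, z.2.1), -z.2.2)),
      (1 / 2 : ℝ) • (kk Φ ((z.1, z.2.1), z.2.2) + kk Φ ((z.1, z.2.1), -z.2.2)),
      u2 ((z.1, z.2.1), z.2.2), u3 ((z.1, z.2.1), z.2.2), u4 ((z.1, z.2.1), z.2.2)],
      ?_, ?_, ?_⟩
  · rw [continuous_pi_iff]
    intro i
    fin_cases i
    · exact ((hc1.continuous.comp e1).add (hc1.continuous.comp e2)).const_smul (1 / 2 : ℝ)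
    · exact ((hkk.continuous.comp e1).add (hkk.continuous.comp e2)).const_smul (1 / 2 : ℝ)
    · exact hu2c.comp e1
    · exact hu3c.comp e1
    · exact hu4c.comp e1
  · intro t p φ hφ hc
    exact as_diag hφ hc (hu20 (t, p)) (hu30 (t, p)) (hu40 (t, p))
  · intro t p φ hφ τ hτ
    exact as_off hΦ hφ hτ (hu2 (t, p) τ) (hu3 (t, p) τ) (hu4 (t, p) τ)

/-- Stability criterion. -/
theorem stable_of_cubic [FiniteDimensional ℝ F] {φ : S2 → F}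
    (hφ : IsTotallySkewEmbedding (𝓡 2) φ)
    (hc : ∀ p, LinearIndependent ℝ (cubic φ p)) : IsStable (𝓡 2) φ := by
  refine ⟨hφ, fun n Ψ hΨ h0 => ?_⟩
  have : CompleteSpace F := FiniteDimensional.complete ℝ F
  obtain ⟨U, hUc, hU1, hU2⟩ := as_frame
    (Φ := fun q : EuclideanSpace ℝ (Fin n) × V3 => ex (fun z => Ψ (q.1, z)) q.2)
    (fun q hq => ex_smooth hΨ hq)
  have hφ0 : (fun z => Ψ (0, z)) = φ := funext h0
  have hz : ∀ q : V3, ex (fun z => Ψ (0, z)) q = ex φ q := fun q => by rw [hφ0]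
  -- the frame of `φ`
  have hA : ∀ p, ∀ τ ∈ Icc (0 : ℝ) (π / 2), LinearIndependent ℝ (U (0, p, τ)) := by
    intro p τ hτ
    rcases hτ.1.eq_or_lt with h | h
    · rw [← h]
      exact hU1 0 p φ hz (hc p)
    · rw [hU2 0 p φ hz τ h]
      exact as_rel hφ p ⟨h, hτ.2⟩
  -- tube lemma
  have hopen : IsOpen {q : EuclideanSpace ℝ (Fin n) × (P3 × ℝ) |
      LinearIndependent ℝ (U q)} := isOpen_setOfPred_linearIndependent.preimage hUc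
  have hcompact : IsCompact (Icc (fun _ : Fin 3 => -(4 : ℝ)) (fun _ => 4) ×ˢ
      Icc (0 : ℝ) (π / 2)) := isCompact_Icc.prod isCompact_Icc
  obtain ⟨A, B, hAo, -, hA0, hB0, hAB⟩ := generalized_tube_lemma
    (isCompact_singleton (x := (0 : EuclideanSpace ℝ (Fin n)))) hcompact hopen (by
      rintro ⟨t, p, τ⟩ ⟨ht, hp, hτ⟩
      have ht' : t = 0 := ht
      subst ht'
      exact hA p τ hτ)
  filter_upwards [hAo.mem_nhds (hA0 rfl)] with t ht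
  have hΨt : ContMDiff (𝓡 2) 𝓘(ℝ, F) ∞ fun z => Ψ (t, z) :=
    hΨ.comp (contMDiff_const.prodMk contMDiff_id)
  refine as_ts hΨt fun p hp τ hτ => ?_
  rw [← hU2 t p (fun z => Ψ (t, z)) (fun _ => rfl) τ hτ.1]
  have h1 : (t, (p, τ)) ∈ A ×ˢ B := ⟨ht, hB0 ⟨hp, hτ.1.le, hτ.2⟩⟩
  exact hAB h1

end Pool.Agent.Lib.SkewSt
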