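import Pool.Agent.Lib.MP_794fdb_gt.U.Mani3

/-!
# MP_794fdb_gt : stable totally skew embeddings of the two-sphere, definitions
-/

set_option autoImplicit false

open scoped ContDiff Manifold Topology
open Real Set Matrix

namespace Pool.Agent.TotallySkew

/-- `φ : M → F` is a stable totally skew embedding: it is a totally skew embedding, and for every
smooth family `Ψ t`, `t ∈ ℝⁿ`, of maps `M → F` with `Ψ 0 = φ`, the map `Ψ t` is a totally skew
embedding for all `t` in a neighbourhood of `0`. -/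
def IsStable {E H M F : Type*} [NormedAddCommGroup E] [NormedSpace ℝ E] [TopologicalSpace H]
    [TopologicalSpace M] [ChartedSpace H M] [NormedAddCommGroup F] [NormedSpace ℝ F]
    (I : ModelWithCorners ℝ E H) (φ : M → F) : Prop :=
  IsTotallySkewEmbedding I φ ∧
  ∀ (n : ℕ) (Ψ : EuclideanSpace ℝ (Fin n) × M → F),
    ContMDiff (𝓘(ℝ, EuclideanSpace ℝ (Fin n)).prod I) 𝓘(ℝ, F) ∞ Ψ → (∀ x, Ψ (0, x) = φ x) →
    ∀ᶠ t in 𝓝 (0 : EuclideanSpace ℝ (Fin n)), IsTotallySkewEmbedding I fun x => Ψ (t, x)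

end Pool.Agent.TotallySkew

namespace Pool.Agent.Lib.SkewSt

open Pool.Agent.TotallySkew Pool.Agent.Lib.SkewU

/-- The extension of a map of the sphere with homogeneity zero (the value at `0` is `0`). -/
noncomputable def ex {F : Type} [NormedAddCommGroup F] (φ : S2 → F) (p : V3) : F :=
  if h : p = 0 then 0 else φ ⟨mani1_rad p, mani1_rad_mem h⟩

/-- Derivative in the last variable. -/
noncomputable def dT {W F : Type} [NormedAddCommGroup F] [NormedSpace ℝ F] (g : W × ℝ → F)
    (z : W × ℝ) : F :=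
  deriv (fun σ => g (z.1, σ)) z.2

/-- The curve `τ ↦ Φ (t, pt τ (S p))`, as a function of `((t, p), τ)`. -/
noncomputable def cc {P F : Type} (Φ : P × V3 → F) (z : (P × P3) × ℝ) : F :=
  Φ (z.1.1, pt z.2 (S z.1.2))

/-- The derivative in the direction `S p 1` along this curve. -/
noncomputable def kk {P F : Type} [NormedAddCommGroup F] [NormedSpace ℝ F] (Φ : P × V3 → F)
    (z : (P × P3) × ℝ) : F :=
  fderiv ℝ (fun q => Φ (z.1.1, q)) (pt z.2 (S z.1.2)) (S z.1.2 1)

/-- The five vectors that have to be independent on the diagonal: with `γ τ = φ (pt τ (S p))` and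
`k τ = dφ (S p 1)` at `pt τ (S p)`, the values at `0` of `γ', k, γ'', k', γ'''`. -/
noncomputable def cubic {F : Type} [NormedAddCommGroup F] [NormedSpace ℝ F] (φ : S2 → F)
    (p : P3) : Fin 5 → F :=
  ![deriv (fun τ => ex φ (pt τ (S p))) 0,
    fderiv ℝ (ex φ) (pt 0 (S p)) (S p 1),
    deriv (deriv fun τ => ex φ (pt τ (S p))) 0,
    deriv (fun τ => fderiv ℝ (ex φ) (pt τ (S p)) (S p 1)) 0,
    deriv (deriv (deriv fun τ => ex φ (pt τ (S p)))) 0]

end Pool.Agent.Lib.SkewSt
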