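import Pool.Agent.Lib.MP_794fdb_gt.St.Defs

set_option autoImplicit false

open scoped ContDiff Manifold Topology
open Real Set Matrix

namespace Pool.Agent.Lib.SkewSt

open Pool.Agent.TotallySkew Pool.Agent.Lib.SkewU

variable {F : Type} [NormedAddCommGroup F] [NormedSpace ℝ F]

omit [NormedSpace ℝ F] in
theorem EX_ex_eq (φ : S2 → F) {p : V3} (h : p ≠ 0) :
    ex φ p = φ ⟨mani1_rad p, mani1_rad_mem h⟩ := by
  unfold ex
  rw [dif_neg h]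

theorem ex_unit (φ : S2 → F) (x : S2) : ex φ (x : E3).ofLp = φ x := by
  rw [EX_ex_eq φ (mani1_unit_ne x)]
  have h2 : ‖(x : E3)‖ = 1 := by simp
  have h3 : mani1_rad (x : E3).ofLp = (x : E3) := by
    unfold mani1_rad
    rw [WithLp.toLp_ofLp, h2, inv_one, one_smul]
  have h4 : (⟨mani1_rad (x : E3).ofLp, mani1_rad_mem (mani1_unit_ne x)⟩ : S2) = x :=
    Subtype.ext h3
  rw [h4]

/-- The open set of pairs with nonzero second component. -/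
def EX_U (P : Type) [NormedAddCommGroup P] [NormedSpace ℝ P] : TopologicalSpace.Opens (P × V3) :=
  ⟨{q | q.2 ≠ 0}, isOpen_ne.preimage continuous_snd⟩

/-- Joint smoothness of the extension of a smooth family. -/
theorem ex_smooth {P : Type} [NormedAddCommGroup P] [NormedSpace ℝ P] {Ψ : P × S2 → F}
    (hΨ : ContMDiff (𝓘(ℝ, P).prod (𝓡 2)) 𝓘(ℝ, F) ∞ Ψ) {q : P × V3} (hq : q.2 ≠ 0) :
    ContDiffAt ℝ ∞ (fun q : P × V3 => ex (fun z => Ψ (q.1, z)) q.2) q := by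
  have hmem : ∀ p : EX_U P, (mani1_rad (p : P × V3).2) ∈ Metric.sphere (0 : E3) 1 := fun p =>
    mani1_rad_mem p.2
  have h1 : ContMDiff 𝓘(ℝ, P × V3) 𝓘(ℝ, E3) ∞ (fun p : EX_U P => mani1_rad (p : P × V3).2) := by
    intro p
    have h2 : ContMDiffAt 𝓘(ℝ, P × V3) 𝓘(ℝ, E3) ∞ (fun q : P × V3 => mani1_rad q.2)
        (p : P × V3) := by
      apply ContDiffAt.contMDiffAt
      exact (mani1_rad_smooth (x := (p : P × V3).2) p.2).comp (p : P × V3) contDiffAt_snd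
    exact contMDiffAt_subtype_iff.2 h2
  have h3 := h1.codRestrict_sphere (n := 2) hmem
  have h3' : ContMDiff 𝓘(ℝ, P × V3) 𝓘(ℝ, P) ∞ (fun p : EX_U P => (p : P × V3).1) := by
    intro p
    have h2 : ContMDiffAt 𝓘(ℝ, P × V3) 𝓘(ℝ, P) ∞ (fun q : P × V3 => q.1) (p : P × V3) :=
      contDiffAt_fst.contMDiffAt
    exact contMDiffAt_subtype_iff.2 h2
  have h4 : ContMDiff 𝓘(ℝ, P × V3) 𝓘(ℝ, F) ∞
      (fun p : EX_U P => Ψ ((p : P × V3).1, Set.codRestrict _ _ hmem p)) :=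
    hΨ.comp (h3'.prodMk h3)
  have h5 : ContMDiff 𝓘(ℝ, P × V3) 𝓘(ℝ, F) ∞
      (fun p : EX_U P => (fun q : P × V3 => ex (fun z => Ψ (q.1, z)) q.2) (p : P × V3)) := by
    have h8 : (fun p : EX_U P => (fun q : P × V3 => ex (fun z => Ψ (q.1, z)) q.2) (p : P × V3)) =
        (fun p : EX_U P => Ψ ((p : P × V3).1, Set.codRestrict _ _ hmem p)) := by
      funext p
      exact EX_ex_eq _ p.2
    rw [h8]
    exact h4
  have h9 := h5 (⟨q, hq⟩ : EX_U P)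
  have h10 : ContMDiffAt 𝓘(ℝ, P × V3) 𝓘(ℝ, F) ∞
      (fun q : P × V3 => ex (fun z => Ψ (q.1, z)) q.2) q :=
    (contMDiffAt_subtype_iff (U := EX_U P) (f := fun q : P × V3 => ex (fun z => Ψ (q.1, z)) q.2)
      (x := ⟨q, hq⟩)).1 h9
  exact h10.contDiffAt

theorem ex_smooth_single {φ : S2 → F} (hφ : ContMDiff (𝓡 2) 𝓘(ℝ, F) ∞ φ) {q : V3} (hq : q ≠ 0) :
    ContDiffAt ℝ ∞ (ex φ) q := by
  have hmem : ∀ p : mani1_U, (mani1_rad (p : V3)) ∈ Metric.sphere (0 : E3) 1 := fun p =>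
    mani1_rad_mem p.2
  have h1 : ContMDiff 𝓘(ℝ, V3) 𝓘(ℝ, E3) ∞ (fun p : mani1_U => mani1_rad (p : V3)) := by
    intro p
    have h2 : ContMDiffAt 𝓘(ℝ, V3) 𝓘(ℝ, E3) ∞ mani1_rad (p : V3) :=
      (mani1_rad_smooth p.2).contMDiffAt
    exact contMDiffAt_subtype_iff.2 h2
  have h3 := h1.codRestrict_sphere (n := 2) hmem
  have h4 : ContMDiff 𝓘(ℝ, V3) 𝓘(ℝ, F) ∞
      (fun p : mani1_U => φ (Set.codRestrict _ _ hmem p)) := hφ.comp h3
  have h5 : ContMDiff 𝓘(ℝ, V3) 𝓘(ℝ, F) ∞ (fun p : mani1_U => ex φ (p : V3)) := by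
    have h8 : (fun p : mani1_U => ex φ (p : V3)) =
        (fun p : mani1_U => φ (Set.codRestrict _ _ hmem p)) := by
      funext p
      exact EX_ex_eq φ p.2
    rw [h8]
    exact h4
  have h9 := h5 (⟨q, hq⟩ : mani1_U)
  have h10 : ContMDiffAt 𝓘(ℝ, V3) 𝓘(ℝ, F) ∞ (ex φ) q :=
    (contMDiffAt_subtype_iff (U := mani1_U) (f := ex φ) (x := ⟨q, hq⟩)).1 h9
  exact h10.contDiffAt

end Pool.Agent.Lib.SkewSt
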