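import Pool.Agent.Lib.MP_794fdb_gt.St.TA

set_option autoImplicit false

open scoped ContDiff Manifold Topology
open Real Set Matrix

namespace Pool.Agent.Lib.SkewSt

open Pool.Agent.TotallySkew Pool.Agent.Lib.SkewU

variable {F G : Type} [NormedAddCommGroup F] [NormedSpace ℝ F] [NormedAddCommGroup G]
  [NormedSpace ℝ G]

theorem LO_ex_comp (L : F →L[ℝ] G) (φ : S2 → F) :
    ex (fun x => L (φ x)) = fun p => L (ex φ p) := by
  funext p
  unfold ex
  split_ifs with h
  · simp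
  · rfl

theorem LO_fderiv_comp (L : F →L[ℝ] G) {φ : S2 → F} (hφ : ContMDiff (𝓡 2) 𝓘(ℝ, F) ∞ φ)
    {x : V3} (hx : x ≠ 0) (v : V3) :
    fderiv ℝ (ex fun x => L (φ x)) x v = L (fderiv ℝ (ex φ) x v) := by
  have hd : DifferentiableAt ℝ (ex φ) x := (ex_smooth_single hφ hx).differentiableAt (by simp)
  rw [LO_ex_comp]
  have h1 : HasFDerivAt (fun p => L (ex φ p)) (L.comp (fderiv ℝ (ex φ) x)) x :=
    L.hasFDerivAt.comp x hd.hasFDerivAt
  rw [h1.fderiv]
  rfl

/-- If the composition with a linear map is totally skew, then the map is totally skew. -/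
theorem ts_of_comp (L : F →L[ℝ] G) {φ : S2 → F} (hφ : ContMDiff (𝓡 2) 𝓘(ℝ, F) ∞ φ)
    (h : IsTotallySkewEmbedding (𝓡 2) fun x => L (φ x)) : IsTotallySkewEmbedding (𝓡 2) φ := by
  have hL : ContMDiff (𝓡 2) 𝓘(ℝ, G) ∞ fun x => L (φ x) := L.contMDiff.comp hφ
  rw [ts_iff hφ]
  rw [ts_iff hL] at h
  intro x y hx hy hxy s v w hv hw he
  have hne : ∀ z : V3, z ⬝ᵥ z = 1 → z ≠ 0 := by
    intro z hz h0
    rw [h0, dotProduct_zero] at hz
    exact zero_ne_one hz
  refine h x y hx hy hxy s v w hv hw ?_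
  rw [LO_fderiv_comp L hφ (hne x hx), LO_fderiv_comp L hφ (hne y hy), LO_ex_comp]
  have := congrArg L he
  simpa [map_add, map_smul, map_sub] using this

/-- Stability is preserved by an injective linear map with a left inverse. -/
theorem stable_comp (J : F →L[ℝ] G) (L : G →L[ℝ] F) (hL : ∀ v, L (J v) = v) {φ : S2 → F}
    (h : IsStable (𝓡 2) φ) : IsStable (𝓡 2) fun x => J (φ x) := by
  obtain ⟨h1, h2⟩ := h
  refine ⟨?_, ?_⟩
  · refine ts_of_comp L (J.contMDiff.comp h1.1) ?_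
    simpa only [hL] using h1
  · intro n Ψ hΨ h0
    have h3 := h2 n (fun q => L (Ψ q)) (L.contMDiff.comp hΨ) (fun x => by rw [h0, hL])
    filter_upwards [h3] with t ht
    refine ts_of_comp L ?_ ht
    exact hΨ.comp (contMDiff_const.prodMk contMDiff_id)

end Pool.Agent.Lib.SkewSt
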