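import Pool.Agent.Lib.MP_794fdb_gt.St.LO
import Pool.Agent.Lib.MP_794fdb_gt.U.Final

set_option autoImplicit false

open scoped ContDiff Manifold Topology
open Real Set Matrix

namespace Pool.Agent.Lib.SkewSt

open Pool.Agent.TotallySkew Pool.Agent.Lib.SkewU

/-- The parameter space of six matrices. -/
abbrev ns_P : Type := EuclideanSpace ℝ (Fin 54)

/-- The index of the entry `a, b` of the `i`-th matrix. -/
def ns_idx (i : Fin 6) (a b : Fin 3) : Fin 54 := ⟨9 * i.1 + 3 * a.1 + b.1, by omega⟩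

/-- The matrices with parameter `t`. -/
def ns_Q (t : ns_P) (i : Fin 6) : Matrix (Fin 3) (Fin 3) ℝ :=
  Matrix.of fun a b => t (ns_idx i a b)

/-- The entries as a vector. -/
def ns_vec (Q : Fin 6 → Matrix (Fin 3) (Fin 3) ℝ) (k : Fin 54) : ℝ :=
  Q ⟨k.1 / 9, by omega⟩ ⟨k.1 / 3 % 3, by omega⟩ ⟨k.1 % 3, by omega⟩

theorem ns_Q_vec (Q : Fin 6 → Matrix (Fin 3) (Fin 3) ℝ) :
    ns_Q (WithLp.toLp 2 (ns_vec Q)) = Q := by
  funext i
  ext a b
  change ns_vec Q (ns_idx i a b) = Q i a b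
  unfold ns_vec ns_idx
  congr
  · simp only
    omega
  · simp only
    omega
  · simp only
    omega

theorem ns_smooth : ContDiff ℝ ∞ (fun z : ns_P × E3 =>
    (WithLp.toLp 2 fun i => z.2.ofLp ⬝ᵥ (ns_Q z.1 i *ᵥ z.2.ofLp) : E6)) := by
  rw [contDiff_euclidean]
  intro i
  simp only [dotProduct, mulVec, ns_Q, Matrix.of_apply]
  fun_prop

theorem ns_family {φ : S2 → E6} (hφ : ContMDiff (𝓡 2) 𝓘(ℝ, E6) ∞ φ) :
    ContMDiff (𝓘(ℝ, ns_P).prod (𝓡 2)) 𝓘(ℝ, E6) ∞
      (fun z : ns_P × S2 => φ z.2 + quad (ns_Q z.1) z.2) := by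
  refine ContMDiff.add (hφ.comp contMDiff_snd) ?_
  have h1 : ContMDiff (𝓘(ℝ, ns_P).prod (𝓡 2)) 𝓘(ℝ, ns_P × E3) ∞
      (fun z : ns_P × S2 => (z.1, (z.2 : E3))) :=
    ContMDiff.prodMk_space contMDiff_fst
      ((contMDiff_coe_sphere (E := E3) (n := 2)).comp contMDiff_snd)
  exact ns_smooth.contMDiff.comp h1

/-- No totally skew embedding of the sphere in six-space is stable. -/
theorem not_stable_six (φ : S2 → E6) : ¬ IsStable (𝓡 2) φ := by
  rintro ⟨hs, h⟩
  have hev := h 54 (fun z => φ z.2 + quad (ns_Q z.1) z.2) (ns_family hs.1) (by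
    intro x
    have : quad (ns_Q 0) x = 0 := by
      ext i
      simp [quad, ns_Q, dotProduct, mulVec]
    simp [this])
  have hc : Filter.Tendsto (fun s : Fin 54 → ℝ => (WithLp.toLp 2 s : ns_P)) (𝓝 0) (𝓝 0) := by
    have := (PiLp.continuous_toLp 2 (fun _ : Fin 54 => ℝ)).tendsto 0
    simpa using this
  have hev2 := hc.eventually hev
  rw [Metric.eventually_nhds_iff] at hev2
  obtain ⟨ε, hε, hball⟩ := hev2
  obtain ⟨Q, -, hQ2, hQ3⟩ := unstable φ hε
  have h3 := @hball (ns_vec Q) (by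
    rw [dist_pi_lt_iff hε]
    intro k
    rw [Real.dist_eq, Pi.zero_apply, sub_zero]
    exact hQ2 _ _ _)
  apply hQ3
  simpa only [ns_Q_vec] using h3

/-- Proof: `stable_comp` with the inclusion of `ℝ^N` in `ℝ⁶` and the projection. -/
theorem not_stable_of_le {N : ℕ} (hN : N ≤ 6) (φ : S2 → EuclideanSpace ℝ (Fin N)) :
    ¬ IsStable (𝓡 2) φ := by
  intro h
  let J : EuclideanSpace ℝ (Fin N) →ₗ[ℝ] E6 :=
    { toFun := fun v => WithLp.toLp 2 fun i : Fin 6 => if h : i.1 < N then v ⟨i.1, h⟩ else 0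
      map_add' := by
        intro v w
        ext i
        by_cases h : i.1 < N <;> simp [h]
      map_smul' := by
        intro c v
        ext i
        by_cases h : i.1 < N <;> simp [h] }
  let L : E6 →ₗ[ℝ] EuclideanSpace ℝ (Fin N) :=
    { toFun := fun v => WithLp.toLp 2 fun j : Fin N => v (Fin.castLE hN j)
      map_add' := by
        intro v w
        ext i
        simp
      map_smul' := by
        intro c v
        ext i
        simp }
  refine not_stable_six _ (stable_comp (LinearMap.toContinuousLinearMap J)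
    (LinearMap.toContinuousLinearMap L) ?_ h)
  intro v
  ext j
  simp [J, L]

end Pool.Agent.Lib.SkewSt
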