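import Pool.Agent.Lib.MP_794fdb_gt.St.TA
import Pool.Agent.Lib.MP_794fdb_gt.St.FR
import Pool.Agent.Lib.MP_794fdb_gt.SphereR7
import Pool.Agent.Lib.MP_794fdb_gt.U.Euler1

set_option autoImplicit false

open scoped ContDiff Manifold Topology
open Real Set Matrix

namespace Pool.Agent.Lib.SkewSt

open Pool.Agent.TotallySkew Pool.Agent.Lib.SkewU
open Pool.Agent.Lib.MP_794fdb_gt.SphereR7 (phi)

/-- The quadratic forms of the map `phi` in seven-space, polarised. -/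
noncomputable def bq (x y : V3) : Fin 4 → ℝ :=
  ![x 0 * y 0 - x 1 * y 1, (x 0 * y 1 + x 1 * y 0) / 2, (x 0 * y 2 + x 2 * y 0) / 2,
    (x 1 * y 2 + x 2 * y 1) / 2]

/-- Three linear and four quadratic components. -/
noncomputable def vec7 (a : V3) (b : Fin 4 → ℝ) : EuclideanSpace ℝ (Fin 7) :=
  WithLp.toLp 2 ![a 0, a 1, a 2, b 0, b 1, b 2, b 3]

theorem sa_mem {q : V3} (hq : q ⬝ᵥ q = 1) :
    (WithLp.toLp 2 q : E3) ∈ Metric.sphere (0 : E3) 1 := by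
  have h : ‖(WithLp.toLp 2 q : E3)‖ ^ 2 = 1 := by
    rw [EuclideanSpace.norm_sq_eq, Fin.sum_univ_three]
    simp only [dotProduct, Fin.sum_univ_three] at hq
    simp only [Real.norm_eq_abs, sq_abs]
    linarith
  have h1 : ‖(WithLp.toLp 2 q : E3)‖ = 1 := by
    have h2 := norm_nonneg (WithLp.toLp 2 q : E3)
    nlinarith
  simp [h1]

theorem sa_ex {q : V3} (hq : q ⬝ᵥ q = 1) : ex phi q = vec7 q (bq q q) := by
  have h := ex_unit phi ⟨WithLp.toLp 2 q, sa_mem hq⟩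
  have h' : ex phi q = phi ⟨WithLp.toLp 2 q, sa_mem hq⟩ := h
  rw [h']
  unfold phi Pool.Agent.Lib.MP_794fdb_gt.SphereR7.Phi vec7 bq
  congr 1
  ext i
  fin_cases i <;> simp <;> ring

/-- The great circle through `x` with velocity `v`. -/
noncomputable def sa_c (x v : V3) (τ : ℝ) : V3 := cos τ • x + sin τ • v

theorem sa_c_unit {x v : V3} (hx : x ⬝ᵥ x = 1) (hv : v ⬝ᵥ v = 1) (hxv : x ⬝ᵥ v = 0) (τ : ℝ) :
    sa_c x v τ ⬝ᵥ sa_c x v τ = 1 := by
  have h := sin_sq_add_cos_sq τ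
  simp only [dotProduct, Fin.sum_univ_three, sa_c, Pi.add_apply, Pi.smul_apply, smul_eq_mul]
    at *
  linear_combination (cos τ) ^ 2 * hx + (sin τ) ^ 2 * hv + 2 * sin τ * cos τ * hxv + h

/-- The curve of `phi` over the great circle. -/
noncomputable def sa_g (x v : V3) (τ : ℝ) : EuclideanSpace ℝ (Fin 7) :=
  cos τ • vec7 x 0 + sin τ • vec7 v 0 +
    cos (2 * τ) • vec7 0 ((1 / 2 : ℝ) • (bq x x - bq v v)) + sin (2 * τ) • vec7 0 (bq x v) +
    vec7 0 ((1 / 2 : ℝ) • (bq x x + bq v v))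

theorem sa_g_eq (x v : V3) (τ : ℝ) :
    vec7 (sa_c x v τ) (bq (sa_c x v τ) (sa_c x v τ)) = sa_g x v τ := by
  have h := sin_sq_add_cos_sq τ
  have h1 : cos (2 * τ) = cos τ ^ 2 - sin τ ^ 2 := by rw [cos_two_mul]; linarith
  have h2 : sin (2 * τ) = 2 * sin τ * cos τ := sin_two_mul τ
  unfold sa_g
  rw [h1, h2]
  ext i
  fin_cases i
  · simp [vec7, sa_c]
  · simp [vec7, sa_c]
  · simp [vec7, sa_c]
  · simp [vec7, sa_c, bq]
    linear_combination ((1 / 2) * (x 0 * x 0 - x 1 * x 1 + (v 0 * v 0 - v 1 * v 1))) * h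
  · simp [vec7, sa_c, bq]
    linear_combination ((1 / 2) * (x 0 * x 1 + v 0 * v 1)) * h
  · simp [vec7, sa_c, bq]
    linear_combination ((1 / 2) * (x 0 * x 2 + v 0 * v 2)) * h
  · simp [vec7, sa_c, bq]
    linear_combination ((1 / 2) * (x 1 * x 2 + v 1 * v 2)) * h

theorem sa_hcos (τ : ℝ) : HasDerivAt (fun τ : ℝ => cos (2 * τ)) (-(2 * sin (2 * τ))) τ := by
  have h := (hasDerivAt_id τ).const_mul (2 : ℝ)
  simpa [mul_comm] using h.cos

theorem sa_hsin (τ : ℝ) : HasDerivAt (fun τ : ℝ => sin (2 * τ)) (2 * cos (2 * τ)) τ := by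
  have h := (hasDerivAt_id τ).const_mul (2 : ℝ)
  simpa [mul_comm] using h.sin

/-- General trigonometric curves. -/
theorem sa_deriv {F : Type} [NormedAddCommGroup F] [NormedSpace ℝ F] (A B C D E : F) (τ : ℝ) :
    HasDerivAt (fun τ : ℝ => cos τ • A + sin τ • B + cos (2 * τ) • C + sin (2 * τ) • D + E)
      (cos τ • B + sin τ • (-A) + cos (2 * τ) • ((2 : ℝ) • D) + sin (2 * τ) • (-((2 : ℝ) • C)) +
        0) τ := by
  have h := (((((hasDerivAt_cos τ).smul_const A).add ((hasDerivAt_sin τ).smul_const B)).add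
    ((sa_hcos τ).smul_const C)).add ((sa_hsin τ).smul_const D)).add_const E
  refine h.congr_deriv ?_
  module

theorem sa_deriv_fun {F : Type} [NormedAddCommGroup F] [NormedSpace ℝ F] (A B C D E : F) :
    deriv (fun τ : ℝ => cos τ • A + sin τ • B + cos (2 * τ) • C + sin (2 * τ) • D + E) =
      fun τ : ℝ => cos τ • B + sin τ • (-A) + cos (2 * τ) • ((2 : ℝ) • D) +
        sin (2 * τ) • (-((2 : ℝ) • C)) + 0 := by
  funext τ
  exact (sa_deriv A B C D E τ).deriv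

theorem sa_fderiv {x v : V3} (hx : x ⬝ᵥ x = 1) (hv : v ⬝ᵥ v = 1) (hxv : x ⬝ᵥ v = 0) :
    fderiv ℝ (ex phi) x v = vec7 v (2 • bq x v) := by
  have hx0 : x ≠ 0 := by
    rintro rfl
    simp at hx
  have hd : HasFDerivAt (ex phi) (fderiv ℝ (ex phi) x) x :=
    ((ex_smooth_single Pool.Agent.Lib.MP_794fdb_gt.SphereR7.phi_contMDiff
      hx0).differentiableAt (by simp)).hasFDerivAt
  have hc : HasDerivAt (sa_c x v) v 0 := by
    have h := ((hasDerivAt_cos (0 : ℝ)).smul_const x).add ((hasDerivAt_sin (0 : ℝ)).smul_const v)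
    refine h.congr_deriv ?_
    simp
  have hc0 : sa_c x v 0 = x := by simp [sa_c]
  have hd' : HasFDerivAt (ex phi) (fderiv ℝ (ex phi) x) (sa_c x v 0) := by rw [hc0]; exact hd
  have h1 := hd'.comp_hasDerivAt (0 : ℝ) hc
  have h2 : (ex phi ∘ sa_c x v) = sa_g x v := by
    funext τ
    rw [Function.comp_apply, sa_ex (sa_c_unit hx hv hxv τ), sa_g_eq]
  rw [h2] at h1
  have h3 := sa_deriv (vec7 x 0) (vec7 v 0) (vec7 0 ((1 / 2 : ℝ) • (bq x x - bq v v)))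
    (vec7 0 (bq x v)) (vec7 0 ((1 / 2 : ℝ) • (bq x x + bq v v))) 0
  have h4 := h1.unique h3
  rw [h4]
  ext i
  fin_cases i <;> simp [vec7]

/-- The derivatives of `phi` along great circles. With `h = S p 0`, `k = S p 1`, `m = S p 2`:
`γ τ = (pt, B(pt, pt))` with `pt = cos τ m + sin τ h`, so `γ' (0) = (h, 2 B(m, h))`,
`γ'' (0) = (-m, 2 B(h, h) - 2 B(m, m))`, `γ''' (0) = (-h, -8 B(m, h))`,
`k (0) = (k, 2 B(m, k))`, `k' (0) = (0, 2 B(h, k))`. -/
theorem cubic_phi (p : P3) : cubic phi p =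
    ![vec7 (S p 0) (2 • bq (S p 2) (S p 0)), vec7 (S p 1) (2 • bq (S p 2) (S p 1)),
      vec7 (-(S p 2)) (2 • bq (S p 0) (S p 0) - 2 • bq (S p 2) (S p 2)),
      vec7 0 (2 • bq (S p 0) (S p 1)), vec7 (-(S p 0)) (-(8 • bq (S p 2) (S p 0)))] := by
  have hON := S_ON p
  have hh : S p 0 ⬝ᵥ S p 0 = 1 := by simpa using hON 0 0
  have hk : S p 1 ⬝ᵥ S p 1 = 1 := by simpa using hON 1 1
  have hm : S p 2 ⬝ᵥ S p 2 = 1 := by simpa using hON 2 2
  have hmh : S p 2 ⬝ᵥ S p 0 = 0 := by simpa using hON 2 0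
  have hmk : S p 2 ⬝ᵥ S p 1 = 0 := by simpa using hON 2 1
  have hhk : S p 0 ⬝ᵥ S p 1 = 0 := by simpa using hON 0 1
  have hpt : ∀ τ, pt τ (S p) = sa_c (S p 2) (S p 0) τ := fun τ => rfl
  have hγ : (fun τ => ex phi (pt τ (S p))) = fun τ : ℝ =>
      cos τ • vec7 (S p 2) 0 + sin τ • vec7 (S p 0) 0 +
      cos (2 * τ) • vec7 0 ((1 / 2 : ℝ) • (bq (S p 2) (S p 2) - bq (S p 0) (S p 0))) +
      sin (2 * τ) • vec7 0 (bq (S p 2) (S p 0)) +
      vec7 0 ((1 / 2 : ℝ) • (bq (S p 2) (S p 2) + bq (S p 0) (S p 0))) := by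
    funext τ
    rw [hpt τ, sa_ex (sa_c_unit hm hh hmh τ), sa_g_eq]
    rfl
  have hκ : (fun τ => fderiv ℝ (ex phi) (pt τ (S p)) (S p 1)) = fun τ : ℝ =>
      cos τ • vec7 0 (2 • bq (S p 2) (S p 1)) + sin τ • vec7 0 (2 • bq (S p 0) (S p 1)) +
      cos (2 * τ) • (0 : EuclideanSpace ℝ (Fin 7)) +
      sin (2 * τ) • (0 : EuclideanSpace ℝ (Fin 7)) + vec7 (S p 1) 0 := by
    funext τ
    have ho : pt τ (S p) ⬝ᵥ S p 1 = 0 := by
      rw [hpt τ]
      simp only [sa_c, add_dotProduct, smul_dotProduct, hmk, hhk]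
      simp
    rw [sa_fderiv (by rw [hpt τ]; exact sa_c_unit hm hh hmh τ) hk ho, hpt τ]
    ext i
    fin_cases i <;> simp [vec7, sa_c, bq] <;> ring
  have hκ0 : fderiv ℝ (ex phi) (pt 0 (S p)) (S p 1) =
      vec7 (S p 1) (2 • bq (S p 2) (S p 1)) := by
    have h := congrFun hκ 0
    rw [h]
    ext i
    fin_cases i <;> simp [vec7]
  unfold cubic
  rw [hγ, hκ, hκ0, sa_deriv_fun, sa_deriv_fun, sa_deriv_fun, sa_deriv_fun]
  ext j i
  fin_cases j <;> fin_cases i <;> simp [vec7] <;> ring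

end Pool.Agent.Lib.SkewSt
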