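import Pool.Agent.Lib.MP_794fdb_gt.St.SA
import Pool.Agent.Lib.MP_794fdb_gt.U.Euler1

set_option autoImplicit false

open scoped ContDiff Manifold Topology
open Real Set Matrix

namespace Pool.Agent.Lib.SkewSt

open Pool.Agent.TotallySkew Pool.Agent.Lib.SkewU
open Pool.Agent.Lib.MP_794fdb_gt.SphereR7 (phi)

theorem sb_aux {h k m : V3} (hh : h ⬝ᵥ h = 1) (hk : k ⬝ᵥ k = 1) (hm : m ⬝ᵥ m = 1)
    (hhk : h ⬝ᵥ k = 0) (hhm : h ⬝ᵥ m = 0) (hkm : k ⬝ᵥ m = 0) :
    LinearIndependent ℝ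
      ![vec7 h (2 • bq m h), vec7 k (2 • bq m k),
      vec7 (-m) (2 • bq h h - 2 • bq m m),
      vec7 0 (2 • bq h k), vec7 (-h) (-(8 • bq m h))] := by
  rw [Fintype.linearIndependent_iff]
  intro g hg
  have hc : ∀ i : Fin 7, (∑ j, g j • ![vec7 h (2 • bq m h), vec7 k (2 • bq m k),
      vec7 (-m) (2 • bq h h - 2 • bq m m),
      vec7 0 (2 • bq h k), vec7 (-h) (-(8 • bq m h))] j) i = 0 := by
    intro i
    rw [hg]
    rfl
  simp only [Fin.sum_univ_five] at hc
  have c0 := hc 0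
  have c1 := hc 1
  have c2 := hc 2
  have c3 := hc 3
  have c4 := hc 4
  have c5 := hc 5
  have c6 := hc 6
  clear hc hg
  simp [vec7, bq] at c0 c1 c2 c3 c4 c5 c6
  simp only [dotProduct, Fin.sum_univ_three] at hh hk hm hhk hhm hkm
  have e04 : g 0 - g 4 = 0 := by
    linear_combination (h 0) * c0 + (h 1) * c1 + (h 2) * c2 - (g 0 - g 4) * hh - g 1 * hhk
      + g 2 * hhm
  have e1 : g 1 = 0 := by
    linear_combination (k 0) * c0 + (k 1) * c1 + (k 2) * c2 - (g 0 - g 4) * hhk - g 1 * hk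
      + g 2 * hkm
  have e2 : g 2 = 0 := by
    linear_combination -((m 0) * c0 + (m 1) * c1 + (m 2) * c2) + (g 0 - g 4) * hhm + g 1 * hkm
      - g 2 * hm
  have e0 : g 0 = g 4 := by linarith
  rw [e0, e1, e2] at c3 c4 c5 c6
  have hd : h 0 ≠ 0 ∨ h 1 ≠ 0 ∨ h 2 ≠ 0 := by
    by_contra hcon
    push Not at hcon
    obtain ⟨a0, a1, a2⟩ := hcon
    rw [a0, a1, a2] at hh
    norm_num at hh
  obtain ⟨n0, n1, n2⟩ := Pool.Agent.Lib.MP_794fdb_gt.SphereR7.key_aux (d0 := h 0) (d1 := h 1)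
    (d2 := h 2) (g0 := 2 * g 3 * k 0 - 6 * g 4 * m 0) (g1 := 2 * g 3 * k 1 - 6 * g 4 * m 1)
    (g2 := 2 * g 3 * k 2 - 6 * g 4 * m 2) hd (by linear_combination c3)
    (by linear_combination 2 * c4) (by linear_combination 2 * c5)
    (by linear_combination 2 * c6)
    (by linear_combination 2 * g 3 * hhk - 6 * g 4 * hhm)
  have e3 : g 3 = 0 := by
    linear_combination ((k 0) * n0 + (k 1) * n1 + (k 2) * n2) / 2 - g 3 * hk + 3 * g 4 * hkm
  have e4 : g 4 = 0 := by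
    linear_combination -((m 0) * n0 + (m 1) * n1 + (m 2) * n2) / 6 - g 4 * hm + g 3 / 3 * hkm
  intro i
  fin_cases i
  · exact e0.trans e4
  · exact e1
  · exact e2
  · exact e3
  · exact e4

/-- Proof: `Fintype.linearIndependent_iff`. The three linear components of a relation with
coefficients `g` give `g 0 = g 4`, `g 1 = 0`, `g 2 = 0` by orthonormality of `S p` (`S_ON`); the
four others then say `bq h n = 0` for `h = S p 0`, `n = 2 (g 3) k - 6 (g 4) m`, and `h ⬝ᵥ n = 0`; by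
`key_aux` of SphereR7 (with `d = h ≠ 0`) `n = 0`, so `g 3 = g 4 = 0`. -/
theorem cubic_phi_indep (p : P3) : LinearIndependent ℝ (cubic phi p) := by
  rw [cubic_phi]
  have h := S_ON p
  exact sb_aux (by simpa using h 0 0) (by simpa using h 1 1) (by simpa using h 2 2)
    (by simpa using h 0 1) (by simpa using h 0 2) (by simpa using h 1 2)

end Pool.Agent.Lib.SkewSt
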