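import Pool.Agent.Lib.MP_794fdb_gt.St.EX
import Pool.Agent.TotallySkew.Tools

set_option autoImplicit false

open scoped ContDiff Manifold Topology
open Real Set Matrix

namespace Pool.Agent.Lib.SkewSt

open Pool.Agent.TotallySkew Pool.Agent.Lib.SkewU

variable {F : Type} [NormedAddCommGroup F] [NormedSpace ℝ F]

theorem ta_ne (x : S2) : (x : E3).ofLp ≠ 0 := by
  intro h
  have h1 : (x : E3) = 0 := by
    apply (WithLp.ofLp_injective 2)
    rw [h]
    rfl
  have h2 : ‖(x : E3)‖ = 1 := by simp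
  rw [h1, norm_zero] at h2
  exact zero_ne_one h2

theorem ex_mvfderiv {φ : S2 → F} (hφ : ContMDiff (𝓡 2) 𝓘(ℝ, F) ∞ φ) (x : S2)
    (u : TangentSpace (𝓡 2) x) :
    mvfderiv (𝓡 2) φ x u =
      fderiv ℝ (ex φ) (x : E3).ofLp (mvfderiv (𝓡 2) mani2_inc x u : E3).ofLp := by
  let A : E3 ≃L[ℝ] V3 := PiLp.continuousLinearEquiv 2 ℝ (fun _ : Fin 3 => ℝ)
  have hd : DifferentiableAt ℝ (ex φ) (x : E3).ofLp :=
    (ex_smooth_single hφ (ta_ne x)).differentiableAt (by simp)
  have h1 : HasFDerivAt (fun e : E3 => ex φ (A e))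
      ((fderiv ℝ (ex φ) (x : E3).ofLp).comp (A : E3 →L[ℝ] V3)) (mani2_inc x) := by
    have hA : HasFDerivAt (fun e : E3 => A e) (A : E3 →L[ℝ] V3) (mani2_inc x) :=
      A.hasFDerivAt
    have hP : HasFDerivAt (ex φ) (fderiv ℝ (ex φ) (x : E3).ofLp) (A (mani2_inc x)) :=
      hd.hasFDerivAt
    exact hP.comp (mani2_inc x) hA
  have h2 := mvfderiv_comp_of_hasFDerivAt h1 (mani2_inc_mdiff x) u
  have h3 : (fun p : S2 => ex φ (A (mani2_inc p))) = φ := by
    funext p
    exact ex_unit φ p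
  rw [h3] at h2
  rw [h2]
  rfl

/-- The affine tangent spaces of a totally skew embedding at two points. -/
theorem ta_skew {φ : S2 → F} (hφ : IsTotallySkewEmbedding (𝓡 2) φ) {x y : S2} (hxy : x ≠ y)
    {t : ℝ} {u : TangentSpace (𝓡 2) x} {v : TangentSpace (𝓡 2) y}
    (h : t • (φ x - φ y) + mvfderiv (𝓡 2) φ x u + mvfderiv (𝓡 2) φ y v = 0) :
    t = 0 ∧ u = 0 ∧ v = 0 := by
  obtain ⟨-, -, hinj, hsk⟩ := hφ
  obtain ⟨h1, h2⟩ := hsk x y hxy
  have ht : t = 0 := by
    by_contra ht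
    rw [disjoint_iff, ← AffineSubspace.coe_eq_bot_iff, Set.eq_empty_iff_forall_notMem] at h1
    apply h1 (φ x + t⁻¹ • mvfderiv (𝓡 2) φ x u)
    rw [SetLike.mem_coe, AffineSubspace.mem_inf_iff]
    unfold affineTangent
    refine ⟨?_, ?_⟩
    · rw [AffineSubspace.mem_mk']
      refine ⟨t⁻¹ • u, ?_⟩
      simp
    · rw [AffineSubspace.mem_mk']
      refine ⟨-(t⁻¹ • v), ?_⟩
      have h3 : mvfderiv (𝓡 2) φ x u = -(t • (φ x - φ y)) - mvfderiv (𝓡 2) φ y v := by
        have := eq_neg_of_add_eq_zero_left h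
        rw [← sub_eq_zero] at this ⊢
        rw [← this]
        abel
      rw [h3]
      simp only [map_neg, map_smul, smul_sub, smul_neg, smul_smul, inv_mul_cancel₀ ht, one_smul,
        vsub_eq_sub]
      abel
  subst ht
  rw [zero_smul, zero_add] at h
  unfold affineTangent at h2
  rw [AffineSubspace.direction_mk', AffineSubspace.direction_mk', Submodule.disjoint_def] at h2
  have h3 : mvfderiv (𝓡 2) φ x u = 0 := by
    apply h2 _ ⟨u, rfl⟩
    refine ⟨-v, ?_⟩
    change mvfderiv (𝓡 2) φ y (-v) = mvfderiv (𝓡 2) φ x u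
    rw [map_neg]
    exact (eq_neg_of_add_eq_zero_left h).symm
  have h4 : mvfderiv (𝓡 2) φ y v = 0 := by
    rw [h3, zero_add] at h
    exact h
  exact ⟨rfl, (injective_iff_map_eq_zero _).1 (hinj x) u h3,
    (injective_iff_map_eq_zero _).1 (hinj y) v h4⟩

theorem ta_inc_orth (x : S2) (u : TangentSpace (𝓡 2) x) :
    (x : E3).ofLp ⬝ᵥ (mvfderiv (𝓡 2) mani2_inc x u : E3).ofLp = 0 := by
  have h : (mvfderiv (𝓡 2) mani2_inc x u : E3) ∈ (mvfderiv (𝓡 2) mani2_inc x).range := ⟨u, rfl⟩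
  rw [range_mvfderiv_subtypeVal, Submodule.mem_orthogonal_singleton_iff_inner_right,
    ← mani2_dot] at h
  exact h

theorem ta_unit (x : S2) : (x : E3).ofLp ⬝ᵥ (x : E3).ofLp = 1 := by
  rw [mani2_dot, real_inner_self_eq_norm_sq]
  have h2 : ‖(x : E3)‖ = 1 := by simp
  rw [h2]; norm_num

theorem ta_inc_inj (x : S2) (u : TangentSpace (𝓡 2) x)
    (h : (mvfderiv (𝓡 2) mani2_inc x u : E3).ofLp = 0) : u = 0 := by
  have h1 : (mvfderiv (𝓡 2) mani2_inc x u : E3) = 0 := by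
    apply (WithLp.ofLp_injective 2)
    rw [h]
    rfl
  have hinj := injective_mvfderiv_subtypeVal_sphere (n := 2) x
  exact (injective_iff_map_eq_zero _).1 hinj u h1

theorem ts_iff {φ : S2 → F} (hφ : ContMDiff (𝓡 2) 𝓘(ℝ, F) ∞ φ) :
    IsTotallySkewEmbedding (𝓡 2) φ ↔
      ∀ x y : V3, x ⬝ᵥ x = 1 → y ⬝ᵥ y = 1 → x ≠ y → ∀ (s : ℝ) (v w : V3),
        x ⬝ᵥ v = 0 → y ⬝ᵥ w = 0 →
        s • (ex φ x - ex φ y) + fderiv ℝ (ex φ) x v + fderiv ℝ (ex φ) y w = 0 →
          s = 0 ∧ v = 0 ∧ w = 0 := by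
  constructor
  · intro hsk x y hx hy hxy s v w hv hw h
    have hX := mani3_unit_mem hx
    have hY := mani3_unit_mem hy
    set X : S2 := ⟨WithLp.toLp 2 x, hX⟩ with hXd
    set Y : S2 := ⟨WithLp.toLp 2 y, hY⟩ with hYd
    have hXY : X ≠ Y := by
      intro e
      apply hxy
      have := congrArg (fun z : S2 => (z : E3).ofLp) e
      exact this
    have e1 : ex φ x = φ X := ex_unit φ X
    have e2 : ex φ y = φ Y := ex_unit φ Y
    obtain ⟨u1, hu1⟩ := mani2_exists_tangent X (v := v) hv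
    obtain ⟨u2, hu2⟩ := mani2_exists_tangent Y (v := w) hw
    have d1 : mvfderiv (𝓡 2) φ X u1 = fderiv ℝ (ex φ) x v := by
      rw [ex_mvfderiv hφ X u1, hu1]
    have d2 : mvfderiv (𝓡 2) φ Y u2 = fderiv ℝ (ex φ) y w := by
      rw [ex_mvfderiv hφ Y u2, hu2]
    have h3 : s • (φ X - φ Y) + mvfderiv (𝓡 2) φ X u1 + mvfderiv (𝓡 2) φ Y u2 = 0 := by
      rw [d1, d2, ← e1, ← e2]
      exact h
    obtain ⟨hs, h1, h2⟩ := ta_skew hsk hXY h3
    refine ⟨hs, ?_, ?_⟩
    · rw [h1, map_zero] at hu1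
      have := congrArg WithLp.ofLp hu1
      simpa using this.symm
    · rw [h2, map_zero] at hu2
      have := congrArg WithLp.ofLp hu2
      simpa using this.symm
  · intro H
    have key : ∀ x y : S2, x ≠ y → ∀ (t : ℝ) (u : TangentSpace (𝓡 2) x)
        (v : TangentSpace (𝓡 2) y),
        t • (φ x - φ y) + mvfderiv (𝓡 2) φ x u + mvfderiv (𝓡 2) φ y v = 0 →
        t = 0 ∧ u = 0 := by
      intro x y hxy t u v h
      have hne : (x : E3).ofLp ≠ (y : E3).ofLp := by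
        intro e
        apply hxy
        apply Subtype.ext
        exact (WithLp.ofLp_injective 2) e
      rw [ex_mvfderiv hφ x u, ex_mvfderiv hφ y v, ← ex_unit φ x, ← ex_unit φ y] at h
      obtain ⟨h1, h2, h3⟩ := H _ _ (ta_unit x) (ta_unit y) hne t _ _ (ta_inc_orth x u)
        (ta_inc_orth y v) h
      exact ⟨h1, ta_inc_inj x u h2⟩
    refine isTotallySkewEmbedding_of_compact hφ ?_ ?_
    · intro x u hu
      have hne : x ≠ -x := by
        intro e
        have h1 := congrArg (fun z : S2 => (z : E3)) e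
        have h2 : (x : E3) = -(x : E3) := by simpa using h1
        apply ta_ne x
        have h3 : (x : E3).ofLp = -(x : E3).ofLp := by
          conv_lhs => rw [h2]
          rfl
        exact self_eq_neg.1 h3
      exact (key x (-x) hne 0 u 0 (by rw [hu]; simp)).2
    · intro x y hxy t u v h
      obtain ⟨h1, h2⟩ := key x y hxy t u v h
      refine ⟨h1, ?_⟩
      rw [h2, map_zero]

end Pool.Agent.Lib.SkewSt
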